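import Pool.Agent.Confl.W.Thick

/-!
# Rules for adjacency used in the case analysis
-/

set_option autoImplicit false

namespace Pool.Agent.Confl

variable {V : Type}

/-- Rules for adjacency: two different vertices adjacent to a triangle are adjacent; two different
vertices adjacent to all vertices of a path on four vertices are adjacent; a vertex `w` adjacent to
two vertices of a `K₄` and to a vertex `v` adjacent to the other two is adjacent to all of it. -/
structure Horn (G : SimpleGraph V) : Prop where
  k5 : ∀ a b c d e, d ≠ e → G.Adj a b → G.Adj a c → G.Adj b c → G.Adj d a → G.Adj d b →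
    G.Adj d c → G.Adj e a → G.Adj e b → G.Adj e c → G.Adj d e
  pt : ∀ p q a b c d, p ≠ q → a ≠ c → a ≠ d → b ≠ d → G.Adj p a → G.Adj p b → G.Adj p c →
    G.Adj p d → G.Adj q a → G.Adj q b → G.Adj q c → G.Adj q d → G.Adj a b → G.Adj b c →
    G.Adj c d → G.Adj p q
  cp : ∀ a b c d v w, v ≠ c → v ≠ d → w ≠ a → w ≠ b → K4 G a b c d → G.Adj v a → G.Adj v b →
    G.Adj w c → G.Adj w d → G.Adj v w → G.Adj w a

end Pool.Agent.Confl
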