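import Pool.Agent.Confl.Q.Horn
import Pool.Agent.Confl.T.ThinPath

/-!
# Mild graphs
-/

set_option autoImplicit false

namespace Pool.Agent.Confl

variable {V : Type}

/-- The common neighbourhood of every triangle is a clique: there is no induced `K₅` minus an
edge. -/
def NoK5e (G : SimpleGraph V) : Prop :=
  ∀ a b c d e, d ≠ e → G.Adj a b → G.Adj a c → G.Adj b c → G.Adj d a → G.Adj d b → G.Adj d c →
    G.Adj e a → G.Adj e b → G.Adj e c → G.Adj d e

/-- If `a, b, c, d` form a `K₄`, `v ≠ c, d` is adjacent to `a` and `b`, `w ≠ a, b` is adjacent to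
`c` and `d`, and `v`, `w` are adjacent, then `v` is adjacent to `c` or `d` or `w` is adjacent to `a`
or `b`: there is no induced complement of two disjoint paths on three vertices. -/
def CoFree (G : SimpleGraph V) : Prop :=
  ∀ a b c d v w, v ≠ c → v ≠ d → w ≠ a → w ≠ b → K4 G a b c d → G.Adj v a → G.Adj v b →
    G.Adj w c → G.Adj w d → G.Adj v w → G.Adj w a ∨ G.Adj w b ∨ G.Adj v c ∨ G.Adj v d

/-- Mild graphs: no induced `K₅` minus an edge, no induced join of two isolated vertices with a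
path or a cycle on four vertices, no induced complement of two disjoint paths on three vertices. -/
def Mild (G : SimpleGraph V) : Prop := NoK5e G ∧ PathFree G ∧ CoFree G

theorem Mild.horn {G : SimpleGraph V} (h : Mild G) : Horn G where
  k5 := h.1
  pt := by
    intro p q a b c d hpq hac had hbd pa pb pc pd qa qb qc qd ab bc cd
    by_contra hn
    rcases h.2.1 p q a b c d hpq hn hac had hbd pa pb pc pd qa qb qc qd ab bc cd with e | e
    · exact hn (h.1 a b c p q hpq ab e bc pa pb pc qa qb qc)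
    · exact hn (h.1 b c d p q hpq bc e cd pb pc pd qb qc qd)
  cp := by
    intro a b c d v w hvc hvd hwa hwb K va vb wc wd vw
    obtain ⟨ab, ac, ad, bc, bd, cd⟩ := K
    rcases h.2.2 a b c d v w hvc hvd hwa hwb ⟨ab, ac, ad, bc, bd, cd⟩ va vb wc wd vw with
      e | e | e | e
    · exact e
    · exact h.1 b c d w a hwa bc bd cd e wc wd ab ac ad
    · have vd : G.Adj v d := h.1 a b c v d hvd ab ac bc va vb e ad.symm bd.symm cd.symm
      exact h.1 c d v w a hwa cd e.symm vd.symm wc wd vw.symm ac ad va.symm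
    · have vc : G.Adj v c := h.1 a b d v c hvc ab ad bd va vb e ac.symm bc.symm cd
      exact h.1 c d v w a hwa cd vc.symm e.symm wc wd vw.symm ac ad va.symm

/-- Tight graphs with the path condition are mild. -/
theorem mild_of_tight {G : SimpleGraph V} (hT : Tight G) (hP : PathFree G) : Mild G := by
  refine ⟨?_, hP, ?_⟩
  · intro a b c d e hde ab ac bc da db dc ea eb ec
    rcases hT a b d c e ⟨ab, da.symm, ac, db.symm, bc, dc⟩ ea eb with h1 | h1
    · exact absurd h1.symm hde
    · exact h1.symm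
  · intro a b c d v w _ _ hwa _ K _ _ wc wd _
    obtain ⟨ab, ac, ad, bc, bd, cd⟩ := K
    rcases hT c d a b w ⟨cd, ac.symm, bc.symm, ad.symm, bd.symm, ab⟩ wc wd with h1 | h1
    · exact absurd h1 hwa
    · exact Or.inl h1

/-- Diamond-free graphs are mild. -/
theorem mild_of_diamond {G : SimpleGraph V} (h : ∀ a b c d, G.Adj a b → G.Adj a c → G.Adj b c →
    G.Adj a d → G.Adj b d → c ≠ d → G.Adj c d) : Mild G := by
  refine mild_of_tight ?_ ?_
  · intro a b c d v K h1 h2
    by_cases hvc : v = c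
    · exact Or.inl hvc
    · exact Or.inr (h a b v c K.1 h1.symm h2.symm K.2.1 K.2.2.2.1 hvc)
  · intro p q a b c d _ _ hac _ _ pa pb pc _ _ _ _ _ ab bc _
    exact Or.inl (h p b a c pb pa ab.symm pc bc hac)

/-- Triangle-free graphs are mild. -/
theorem mild_of_cliqueFree_three {G : SimpleGraph V} (h : G.CliqueFree 3) : Mild G := by
  refine mild_of_tight ?_ ?_
  · intro a b c d v K
    exact (no_triangle h K.1 K.2.2.2.1 K.2.1).elim
  · intro p q a b c d _ _ _ _ _ pa pb _ _ _ _ _ _ ab
    exact (no_triangle h pa ab pb).elim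

/-- Graphs without `K₄` in which no two vertices have a path on four vertices in their common
neighbourhood are mild. -/
theorem mild_of_cliqueFree_four {G : SimpleGraph V} (h : G.CliqueFree 4) (hP : PathFree G) :
    Mild G := by
  refine mild_of_tight ?_ hP
  intro a b c d v K
  exfalso
  classical
  refine h {a, b, c, d} ⟨?_, ?_⟩
  · simp only [Finset.coe_insert, Finset.coe_singleton, SimpleGraph.isClique_insert,
      SimpleGraph.isClique_singleton, true_and]
    simp [K.1, K.2.1, K.2.2.1, K.2.2.2.1, K.2.2.2.2.1, K.2.2.2.2.2]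
  · rw [Finset.card_insert_of_notMem, Finset.card_insert_of_notMem,
      Finset.card_insert_of_notMem, Finset.card_singleton]
    · simpa using K.2.2.2.2.2.ne
    · simpa using ⟨K.2.2.2.1.ne, K.2.2.2.2.1.ne⟩
    · simpa using ⟨K.1.ne, K.2.1.ne, K.2.2.1.ne⟩

theorem Mild.induce {G : SimpleGraph V} (h : Mild G) (S : Set V) : Mild (G.induce S) := by
  have ne : ∀ {y z : S}, y ≠ z → y.1 ≠ z.1 := fun h e => h (Subtype.ext e)
  refine ⟨?_, ?_, ?_⟩
  · intro a b c d e hde h1 h2 h3 h4 h5 h6 h7 h8 h9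
    exact h.1 a.1 b.1 c.1 d.1 e.1 (ne hde) h1 h2 h3 h4 h5 h6 h7 h8 h9
  · intro p q a b c d hpq npq hac had hbd h1 h2 h3 h4 h5 h6 h7 h8 h9 h10 h11
    exact h.2.1 p.1 q.1 a.1 b.1 c.1 d.1 (ne hpq) npq (ne hac) (ne had) (ne hbd)
      h1 h2 h3 h4 h5 h6 h7 h8 h9 h10 h11
  · intro a b c d v w h1 h2 h3 h4 hK h5 h6 h7 h8 h9
    exact h.2.2 a.1 b.1 c.1 d.1 v.1 w.1 (ne h1) (ne h2) (ne h3) (ne h4) hK h5 h6 h7 h8 h9

end Pool.Agent.Confl
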