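import Pool.Agent.Confl.Q.Rules

/-!
# A certificate
-/

set_option autoImplicit false

namespace Pool.Agent.Confl.Cert3

/-- Part of a certificate. -/
def t11_0 : Tr :=
    (.cmp 2 (.cmp 1 (.cmp 0 .mn (.rf 6) (.gap (.ru 12 (.ru 13 (.lc 0 5 6 3 (.lc 6 2 1 5 (.pt 0 1
    3 6 2 5 (.pt 6 5 2 0 1 3 (.rf 6))) (.rf 6)) (.rf 6)))))) (.rf 6) (.gap (.ru 12 (.ru 13 (.lc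
    0 5 6 3 (.lc 0 6 1 5 (.rf 6) (.pt 0 1 2 6 3 5 (.k5 0 1 3 6 5 (.rf 6)))) (.rf 6)))))) (.ru 12
    (.lc 0 5 2 3 (.cmp 2 (.cmp 1 (.cmp 0 .mn (.ru 18 (.k5 0 1 3 2 5 (.rf 6))) (.gap (.ru 14 (.ru
    18 (.lc 7 2 1 5 (.rf 6) (.pt 2 5 7 1 3 0 (.rf 6))))))) (.ru 18 (.eq 1 1)) (.gap (.ru 14 (.ru
    18 (.cmp 2 (.cmp 1 (.cmp 0 .mn (.rf 19) (.gap (.ru 15 (.ru 16 (.ru 17 (.lc 8 7 1 5 (.k5 8 1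
    2 7 3 (.k5 1 7 3 2 5 (.rf 6))) (.rf 19))))))) (.rf 1) (.cmp 7 (.gap (.rf 1)) (.rf 1) (.gap
    (.rf 1)))) (.rf 1) (.cmp 3 (.cmp 5 (.gap (.rf 1)) (.rf 1) (.gap (.rf 1))) (.rf 1) (.gap (.ru
    16 (.lc 0 5 7 8 (.rf 19) (.pt 2 5 7 1 3 0 (.rf 6))))))))))) (.cmp 2 (.cmp 1 (.cmp 0 .mn (.rf
    19) (.gap (.ru 15 (.lc 8 2 1 5 (.rf 6) (.rf 19))))) (.rf 1) (.gap (.rf 1))) (.rf 1) (.cmp 3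
    (.cmp 5 (.gap (.rf 1)) (.rf 1) (.gap (.rf 1))) (.rf 1) (.gap (.rf 4)))) (.cmp 3 (.cmp 5
    (.gap (.ru 14 (.ru 18 (.lc 0 2 1 7 (.k5 0 1 3 2 5 (.rf 6)) (.pt 0 1 7 2 3 5 (.k5 0 1 3 2 5
    (.rf 6))))))) (.ru 14 (.rf 6)) (.gap (.ru 14 (.ru 18 (.lc 0 5 2 7 (.pt 2 5 7 1 3 0 (.rf 6))
    (.rf 6)))))) (.cmp 2 (.cmp 1 (.cmp 0 .mn (.rf 1) (.gap (.rf 1))) (.rf 1) (.gap (.rf 1)))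
    (.rf 1) (.cmp 3 (.cmp 5 (.gap (.rf 1)) (.rf 1) (.gap (.rf 1))) (.rf 1) (.gap (.rf 1))))
    (.gap (.ru 14 (.ru 18 (.lc 0 5 2 7 (.pt 2 5 7 1 3 0 (.rf 6)) (.rf 6))))))) (.rf 6))) (.cmp 3
    (.cmp 5 (.gap (.ru 12 (.ru 13 (.lc 0 5 6 3 (.lc 0 6 1 5 (.rf 6) (.pt 0 1 2 6 3 5 (.k5 0 1 3
    6 5 (.rf 6)))) (.rf 6))))) (.rf 7) (.gap (.ru 12 (.ru 13 (.lc 0 5 2 6 (.rf 6) (.lc 1 5 2 6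
    (.rf 6) (.pt 0 1 5 2 6 3 (.k5 0 1 2 5 6 (.rf 6))))))))) (.ru 13 (.lc 0 5 2 3 (.rf 6) (.cmp 2
    (.cmp 1 (.cmp 0 .mn (.ru 18 (.k5 0 1 2 5 3 (.rf 6))) (.gap (.ru 14 (.ru 18 (.lc 0 5 7 3 (.rf
    6) (.pt 5 3 7 1 2 0 (.rf 6))))))) (.ru 18 (.eq 1 1)) (.gap (.ru 14 (.ru 18 (.lc 0 5 7 3 (.rf
    6) (.pt 5 3 7 1 2 0 (.rf 6))))))) (.cmp 2 (.cmp 1 (.cmp 0 .mn (.rf 19) (.gap (.ru 17 (.lc 0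
    5 8 3 (.rf 6) (.rf 19))))) (.rf 1) (.gap (.rf 1))) (.rf 1) (.cmp 3 (.cmp 5 (.gap (.rf 1))
    (.rf 1) (.gap (.rf 1))) (.rf 1) (.gap (.rf 4)))) (.cmp 3 (.cmp 5 (.gap (.ru 14 (.ru 18 (.lc
    0 5 7 3 (.rf 6) (.pt 5 3 7 1 2 0 (.rf 6)))))) (.ru 14 (.rf 6)) (.gap (.ru 14 (.ru 18 (.lc 0
    2 1 7 (.k5 0 1 2 5 3 (.rf 6)) (.pt 0 1 5 2 3 7 (.k5 0 1 2 5 3 (.rf 6)))))))) (.cmp 2 (.cmp 1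
    (.cmp 0 .mn (.rf 1) (.gap (.rf 1))) (.rf 1) (.gap (.rf 1))) (.rf 1) (.cmp 3 (.cmp 5 (.gap
    (.rf 1)) (.rf 1) (.gap (.rf 1))) (.rf 1) (.gap (.rf 1)))) (.gap (.ru 14 (.ru 18 (.lc 0 2 1 7
    (.k5 0 1 2 5 3 (.rf 6)) (.pt 0 1 5 2 3 7 (.k5 0 1 2 5 3 (.rf 6))))))))))) (.gap (.ru 12 (.ru
    13 (.lc 0 5 2 6 (.rf 6) (.lc 1 5 2 6 (.rf 6) (.pt 0 1 5 2 6 3 (.k5 0 1 2 5 6 (.rf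
    6))))))))))

/-- Part of a certificate. -/
def t11_1 : Tr :=
    (.cmp 2 (.cmp 1 (.cmp 0 .mn (.rf 6) (.gap (.ru 12 (.ru 13 (.lc 0 5 6 3 (.lc 6 2 1 5 (.pt 0 1
    3 6 2 5 (.pt 6 5 2 0 1 3 (.rf 6))) (.rf 6)) (.rf 6)))))) (.rf 6) (.cmp 4 (.gap (.ru 12 (.ru
    13 (.lc 0 5 6 3 (.lc 0 6 1 5 (.rf 6) (.pt 0 1 2 6 3 5 (.k5 0 1 3 6 5 (.rf 6)))) (.rf 6)))))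
    (.rf 6) (.gap (.ru 12 (.ru 13 (.lc 0 5 6 3 (.lc 0 6 1 5 (.rf 6) (.pt 0 1 2 6 3 5 (.k5 0 1 3
    6 5 (.rf 6)))) (.rf 6))))))) (.ru 12 (.lc 0 5 2 3 (.cmp 2 (.cmp 1 (.cmp 0 .mn (.ru 18 (.k5 0
    1 3 2 5 (.rf 6))) (.gap (.ru 14 (.ru 18 (.lc 7 2 1 5 (.rf 6) (.pt 2 5 7 1 3 0 (.rf 6)))))))
    (.ru 18 (.eq 1 1)) (.cmp 4 (.gap (.ru 14 (.ru 18 (.lc 7 2 4 5 (.rf 6) (.pt 2 5 7 1 3 0 (.rf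
    6)))))) (.ru 18 (.pt 2 5 4 1 3 0 (.rf 6))) (.gap (.ru 14 (.ru 18 (.cmp 7 (.cmp 1 (.cmp 0 .mn
    (.ru 16 (.pt 0 1 7 2 3 5 (.k5 0 1 3 2 5 (.rf 6)))) (.gap (.ru 16 (.lc 8 7 4 5 (.pt 2 5 7 1 3
    0 (.rf 6)) (.rf 19))))) (.rf 1) (.cmp 4 (.gap (.rf 1)) (.rf 1) (.gap (.rf 1)))) (.rf 1)
    (.cmp 5 (.cmp 2 (.gap (.rf 1)) (.rf 1) (.gap (.rf 1))) (.rf 1) (.cmp 3 (.gap (.rf 1)) (.rf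
    1) (.gap (.ru 15 (.ru 16 (.ru 17 (.lc 0 5 2 8 (.pt 1 8 7 2 3 5 (.pt 2 5 8 1 3 0 (.rf 6)))
    (.rf 6)))))))))))))) (.cmp 2 (.cmp 1 (.cmp 0 .mn (.rf 19) (.gap (.ru 15 (.lc 8 2 1 5 (.rf 6)
    (.rf 19))))) (.rf 1) (.cmp 4 (.gap (.rf 1)) (.rf 1) (.gap (.rf 1)))) (.rf 1) (.cmp 3 (.cmp 5
    (.gap (.rf 1)) (.rf 1) (.gap (.rf 1))) (.rf 1) (.gap (.rf 4)))) (.cmp 3 (.cmp 5 (.gap (.ru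
    14 (.ru 18 (.lc 0 2 1 7 (.k5 0 1 3 2 5 (.rf 6)) (.pt 0 1 7 2 3 5 (.k5 0 1 3 2 5 (.rf
    6))))))) (.ru 14 (.rf 6)) (.gap (.ru 14 (.ru 18 (.lc 0 5 2 7 (.pt 2 5 7 1 3 0 (.rf 6)) (.rf
    6)))))) (.cmp 2 (.cmp 1 (.cmp 0 .mn (.rf 1) (.gap (.rf 1))) (.rf 1) (.cmp 4 (.gap (.rf 1))
    (.rf 1) (.gap (.rf 1)))) (.rf 1) (.cmp 3 (.cmp 5 (.gap (.rf 1)) (.rf 1) (.gap (.rf 1))) (.rf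
    1) (.gap (.rf 1)))) (.gap (.ru 14 (.ru 18 (.lc 0 5 2 7 (.pt 2 5 7 1 3 0 (.rf 6)) (.rf
    6))))))) (.rf 6))) (.cmp 3 (.cmp 5 (.gap (.ru 12 (.ru 13 (.lc 0 5 6 3 (.lc 0 6 1 5 (.rf 6)
    (.pt 0 1 2 6 3 5 (.k5 0 1 3 6 5 (.rf 6)))) (.rf 6))))) (.rf 7) (.gap (.ru 12 (.ru 13 (.lc 0
    5 2 6 (.rf 6) (.lc 1 5 2 6 (.rf 6) (.pt 0 1 5 2 6 3 (.k5 0 1 2 5 6 (.rf 6))))))))) (.ru 13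
    (.lc 0 5 2 3 (.rf 6) (.lc 4 5 2 3 (.rf 6) (.cmp 2 (.cmp 1 (.cmp 0 .mn (.ru 18 (.k5 0 1 2 5 3
    (.rf 6))) (.gap (.ru 14 (.ru 18 (.lc 0 5 7 3 (.rf 6) (.pt 5 3 7 1 2 0 (.rf 6))))))) (.ru 18
    (.eq 1 1)) (.cmp 4 (.gap (.ru 14 (.ru 18 (.lc 0 5 7 3 (.rf 6) (.pt 5 3 7 1 2 0 (.rf 6))))))
    (.ru 18 (.k5 1 4 2 5 3 (.rf 6))) (.gap (.ru 14 (.ru 18 (.lc 0 5 7 3 (.rf 6) (.pt 5 3 7 1 2 0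
    (.rf 6)))))))) (.cmp 2 (.cmp 1 (.cmp 0 .mn (.rf 19) (.gap (.ru 17 (.lc 0 5 8 3 (.rf 6) (.rf
    19))))) (.rf 1) (.cmp 4 (.gap (.rf 1)) (.rf 1) (.gap (.rf 1)))) (.rf 1) (.cmp 3 (.cmp 5
    (.gap (.rf 1)) (.rf 1) (.gap (.rf 1))) (.rf 1) (.gap (.rf 4)))) (.cmp 3 (.cmp 5 (.gap (.ru
    14 (.ru 18 (.lc 0 5 7 3 (.rf 6) (.pt 5 3 7 1 2 0 (.rf 6)))))) (.ru 14 (.rf 6)) (.gap (.ru 14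
    (.ru 18 (.lc 0 2 1 7 (.k5 0 1 2 5 3 (.rf 6)) (.pt 0 1 5 2 3 7 (.pt 5 3 1 0 2 4 (.rf
    6)))))))) (.cmp 2 (.cmp 1 (.cmp 0 .mn (.rf 1) (.gap (.rf 1))) (.rf 1) (.cmp 4 (.gap (.rf 1))
    (.rf 1) (.gap (.rf 1)))) (.rf 1) (.cmp 3 (.cmp 5 (.gap (.rf 1)) (.rf 1) (.gap (.rf 1))) (.rf
    1) (.gap (.rf 1)))) (.gap (.ru 14 (.ru 18 (.lc 0 2 1 7 (.k5 0 1 2 5 3 (.rf 6)) (.pt 0 1 5 2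
    3 7 (.pt 5 3 1 0 2 4 (.rf 6)))))))))))) (.gap (.ru 12 (.ru 13 (.lc 0 5 2 6 (.rf 6) (.lc 1 5
    2 6 (.rf 6) (.pt 0 1 5 2 6 3 (.k5 0 1 2 5 6 (.rf 6))))))))))

/-- Part of a certificate. -/
def t11_2 : Tr :=
    (.cmp 6 (.cmp 1 (.cmp 0 .mn (.ru 14 (.pt 1 6 3 0 2 4 (.rf 6))) (.gap (.ru 14 (.lc 0 1 7 6
    (.rf 6) (.pt 1 6 3 0 2 4 (.rf 6)))))) (.ru 18 (.eq 1 1)) (.cmp 2 (.gap (.ru 18 (.cmp 2 (.cmp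
    1 (.cmp 0 .mn (.ru 16 (.lc 0 7 1 4 (.rf 19) (.ru 20 (.k5 0 2 4 1 6 (.rf 6))))) (.gap (.ru 16
    (.lc 8 7 1 4 (.rf 19) (.ru 20 (.pt 1 6 3 0 2 4 (.rf 6))))))) (.rf 1) (.cmp 7 (.gap (.rf 1))
    (.rf 1) (.gap (.rf 1)))) (.rf 1) (.cmp 4 (.cmp 6 (.gap (.rf 1)) (.rf 1) (.gap (.rf 1))) (.rf
    1) (.cmp 3 (.gap (.rf 1)) (.rf 1) (.gap (.ru 16 (.lc 1 4 7 8 (.ru 23 (.pt 1 6 3 0 2 4 (.rf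
    6))) (.rf 19))))))))) (.cmp 6 (.cmp 1 (.cmp 0 .mn (.rf 19) (.gap (.ru 15 (.ru 17 (.lc 0 1 8
    2 (.lc 8 2 1 4 (.rf 19) (.ru 20 (.pt 8 1 3 0 2 4 (.pt 8 6 3 0 2 4 (.pt 1 6 2 0 8 4 (.rf
    6)))))) (.rf 19)))))) (.rf 1) (.cmp 2 (.gap (.rf 1)) (.rf 1) (.gap (.rf 1)))) (.rf 1) (.cmp
    3 (.cmp 4 (.gap (.rf 1)) (.rf 1) (.gap (.rf 1))) (.rf 1) (.gap (.rf 4)))) (.gap (.ru 14 (.ru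
    18 (.cmp 7 (.cmp 1 (.cmp 0 .mn (.rf 5) (.gap (.ru 15 (.ru 16 (.ru 17 (.lc 0 1 8 7 (.lc 0 2 8
    7 (.pt 8 1 3 0 2 7 (.cp 8 1 2 7 3 6 (.cp 1 0 8 2 3 6 (.rf 6)))) (.rf 22)) (.rf 22)))))))
    (.rf 1) (.cmp 2 (.gap (.rf 1)) (.rf 1) (.gap (.rf 1)))) (.rf 1) (.cmp 4 (.cmp 6 (.gap (.rf
    1)) (.rf 1) (.gap (.rf 1))) (.rf 1) (.cmp 3 (.gap (.rf 1)) (.rf 1) (.gap (.rf 4))))))))))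
    (.ru 18 (.rf 6)) (.cmp 3 (.cmp 4 (.gap (.ru 14 (.ru 18 (.cmp 6 (.cmp 1 (.cmp 0 .mn (.rf 5)
    (.gap (.ru 15 (.ru 16 (.ru 17 (.lc 0 1 8 7 (.lc 0 2 8 7 (.pt 8 1 3 0 2 7 (.cp 8 1 2 7 3 6
    (.cp 1 0 8 2 3 6 (.rf 6)))) (.rf 22)) (.rf 22))))))) (.rf 1) (.cmp 2 (.gap (.rf 1)) (.rf 1)
    (.gap (.rf 1)))) (.rf 1) (.cmp 4 (.cmp 7 (.gap (.rf 1)) (.rf 1) (.gap (.rf 1))) (.rf 1)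
    (.cmp 3 (.gap (.rf 1)) (.rf 1) (.gap (.rf 4)))))))) (.cmp 6 (.cmp 1 (.cmp 0 .mn (.rf 5)
    (.gap (.ru 15 (.ru 16 (.ru 17 (.lc 0 1 8 4 (.pt 8 1 3 0 2 4 (.cp 8 1 2 4 3 6 (.cp 1 0 8 2 3
    6 (.rf 6)))) (.rf 22))))))) (.rf 1) (.cmp 2 (.gap (.rf 1)) (.rf 1) (.gap (.rf 1)))) (.rf 1)
    (.cmp 3 (.cmp 4 (.gap (.rf 1)) (.rf 1) (.gap (.rf 1))) (.rf 1) (.gap (.rf 4)))) (.gap (.ru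
    14 (.ru 18 (.cmp 6 (.cmp 1 (.cmp 0 .mn (.rf 5) (.gap (.ru 15 (.ru 16 (.ru 17 (.lc 0 1 8 7
    (.lc 0 2 8 7 (.pt 8 1 3 0 2 7 (.cp 8 1 2 7 3 6 (.cp 1 0 8 2 3 6 (.rf 6)))) (.rf 22)) (.rf
    22))))))) (.rf 1) (.cmp 2 (.gap (.rf 1)) (.rf 1) (.gap (.rf 1)))) (.rf 1) (.cmp 7 (.cmp 4
    (.gap (.rf 1)) (.rf 1) (.gap (.rf 1))) (.rf 1) (.cmp 3 (.gap (.rf 1)) (.rf 1) (.gap (.rf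
    4))))))))) (.cmp 6 (.cmp 1 (.cmp 0 .mn (.rf 1) (.gap (.rf 1))) (.rf 1) (.cmp 2 (.gap (.rf
    1)) (.rf 1) (.gap (.rf 1)))) (.rf 1) (.cmp 3 (.cmp 4 (.gap (.rf 1)) (.rf 1) (.gap (.rf 1)))
    (.rf 1) (.gap (.rf 1)))) (.gap (.ru 14 (.ru 18 (.cmp 6 (.cmp 1 (.cmp 0 .mn (.rf 1) (.gap
    (.rf 1))) (.rf 1) (.cmp 2 (.gap (.ru 15 (.ru 16 (.ru 17 (.lc 0 2 1 7 (.lc 0 2 8 7 (.pt 1 8 3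
    0 2 7 (.cp 1 8 2 7 3 6 (.rf 6))) (.rf 22)) (.rf 22)))))) (.rf 5) (.gap (.rf 4)))) (.rf 4)
    (.cmp 3 (.cmp 4 (.gap (.rf 4)) (.rf 4) (.gap (.rf 4))) (.rf 1) (.cmp 7 (.gap (.rf 1)) (.rf
    1) (.gap (.rf 1))))))))))

/-- Part of a certificate. -/
def t11_3 : Tr :=
    (.cmp 4 (.cmp 1 (.cmp 0 .mn (.ru 14 (.pt 1 6 3 0 2 4 (.rf 6))) (.gap (.ru 14 (.lc 0 1 7 6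
    (.rf 6) (.pt 1 6 3 0 2 4 (.rf 6)))))) (.ru 18 (.eq 1 1)) (.cmp 2 (.gap (.ru 18 (.cmp 2 (.cmp
    1 (.cmp 0 .mn (.ru 16 (.lc 0 7 1 4 (.rf 19) (.ru 20 (.k5 0 2 4 1 6 (.rf 6))))) (.gap (.ru 16
    (.lc 8 7 1 4 (.rf 19) (.ru 20 (.pt 1 6 3 0 2 4 (.rf 6))))))) (.rf 1) (.cmp 7 (.gap (.rf 1))
    (.rf 1) (.gap (.rf 1)))) (.rf 1) (.cmp 6 (.cmp 4 (.gap (.rf 1)) (.rf 1) (.gap (.rf 1))) (.rf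
    1) (.cmp 3 (.gap (.rf 1)) (.rf 1) (.gap (.ru 16 (.lc 1 4 7 8 (.ru 23 (.pt 1 6 3 0 2 4 (.rf
    6))) (.rf 19))))))))) (.cmp 4 (.cmp 1 (.cmp 0 .mn (.rf 19) (.gap (.ru 15 (.ru 17 (.lc 0 1 8
    2 (.lc 8 2 1 4 (.rf 19) (.ru 20 (.pt 8 1 3 0 2 4 (.pt 8 6 3 0 2 4 (.pt 1 6 2 0 8 4 (.rf
    6)))))) (.rf 19)))))) (.rf 1) (.cmp 2 (.gap (.rf 1)) (.rf 1) (.gap (.rf 1)))) (.rf 1) (.cmp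
    3 (.cmp 6 (.gap (.rf 1)) (.rf 1) (.gap (.rf 1))) (.rf 1) (.gap (.rf 4)))) (.gap (.ru 14 (.ru
    18 (.cmp 7 (.cmp 1 (.cmp 0 .mn (.rf 5) (.gap (.ru 15 (.ru 16 (.ru 17 (.lc 0 1 8 7 (.lc 0 2 8
    7 (.pt 8 1 3 0 2 7 (.cp 8 1 2 7 3 6 (.cp 1 0 8 2 3 6 (.rf 6)))) (.rf 22)) (.rf 22)))))))
    (.rf 1) (.cmp 2 (.gap (.rf 1)) (.rf 1) (.gap (.rf 1)))) (.rf 1) (.cmp 6 (.cmp 4 (.gap (.rf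
    1)) (.rf 1) (.gap (.rf 1))) (.rf 1) (.cmp 3 (.gap (.rf 1)) (.rf 1) (.gap (.rf 4))))))))))
    (.cmp 4 (.cmp 1 (.cmp 0 .mn (.rf 5) (.gap (.ru 15 (.ru 16 (.ru 17 (.lc 0 1 8 4 (.pt 8 1 3 0
    2 4 (.cp 8 1 2 4 3 6 (.cp 1 0 8 2 3 6 (.rf 6)))) (.rf 22))))))) (.rf 1) (.cmp 2 (.gap (.rf
    1)) (.rf 1) (.gap (.rf 1)))) (.rf 1) (.cmp 3 (.cmp 6 (.gap (.rf 1)) (.rf 1) (.gap (.rf 1)))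
    (.rf 1) (.gap (.rf 4)))) (.cmp 3 (.cmp 6 (.gap (.ru 14 (.ru 18 (.cmp 4 (.cmp 1 (.cmp 0 .mn
    (.rf 5) (.gap (.ru 15 (.ru 16 (.ru 17 (.lc 0 1 8 7 (.lc 0 2 8 7 (.pt 8 1 3 0 2 7 (.cp 8 1 2
    7 3 6 (.cp 1 0 8 2 3 6 (.rf 6)))) (.rf 22)) (.rf 22))))))) (.rf 1) (.cmp 2 (.gap (.rf 1))
    (.rf 1) (.gap (.rf 1)))) (.rf 1) (.cmp 6 (.cmp 7 (.gap (.rf 1)) (.rf 1) (.gap (.rf 1))) (.rf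
    1) (.cmp 3 (.gap (.rf 1)) (.rf 1) (.gap (.rf 4)))))))) (.ru 18 (.rf 6)) (.gap (.ru 14 (.ru
    18 (.cmp 4 (.cmp 1 (.cmp 0 .mn (.rf 5) (.gap (.ru 15 (.ru 16 (.ru 17 (.lc 0 1 8 7 (.lc 0 2 8
    7 (.pt 8 1 3 0 2 7 (.cp 8 1 2 7 3 6 (.cp 1 0 8 2 3 6 (.rf 6)))) (.rf 22)) (.rf 22)))))))
    (.rf 1) (.cmp 2 (.gap (.rf 1)) (.rf 1) (.gap (.rf 1)))) (.rf 1) (.cmp 7 (.cmp 6 (.gap (.rf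
    1)) (.rf 1) (.gap (.rf 1))) (.rf 1) (.cmp 3 (.gap (.rf 1)) (.rf 1) (.gap (.rf 4)))))))))
    (.cmp 4 (.cmp 1 (.cmp 0 .mn (.rf 1) (.gap (.rf 1))) (.rf 1) (.cmp 2 (.gap (.rf 1)) (.rf 1)
    (.gap (.rf 1)))) (.rf 1) (.cmp 3 (.cmp 6 (.gap (.rf 1)) (.rf 1) (.gap (.rf 1))) (.rf 1)
    (.gap (.rf 1)))) (.gap (.ru 14 (.ru 18 (.cmp 4 (.cmp 1 (.cmp 0 .mn (.rf 1) (.gap (.rf 1)))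
    (.rf 1) (.cmp 2 (.gap (.ru 15 (.ru 16 (.ru 17 (.lc 0 2 1 7 (.lc 0 2 8 7 (.pt 1 8 3 0 2 7
    (.cp 1 8 2 7 3 6 (.rf 6))) (.rf 22)) (.rf 22)))))) (.rf 5) (.gap (.rf 4)))) (.rf 4) (.cmp 3
    (.cmp 6 (.gap (.rf 4)) (.rf 4) (.gap (.rf 4))) (.rf 1) (.cmp 7 (.gap (.rf 1)) (.rf 1) (.gap
    (.rf 1))))))))))

/-- Part of a certificate. -/
def t11_4 : Tr :=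
    (.cmp 4 (.cmp 2 (.gap (.ru 14 (.ru 18 (.cmp 7 (.cmp 5 (.cmp 1 (.cmp 0 .mn (.ru 16 (.lc 0 7 5
    4 (.rf 19) (.ru 20 (.pt 7 3 6 0 5 1 (.cp 0 6 7 3 2 1 (.cp 1 0 7 3 2 6 (.cp 5 0 1 7 4 6 (.rf
    6)))))))) (.gap (.ru 16 (.lc 8 7 5 4 (.rf 19) (.ru 20 (.lc 5 7 6 2 (.rf 6) (.pt 5 6 3 0 2 4
    (.rf 6)))))))) (.rf 1) (.gap (.rf 1))) (.rf 1) (.cmp 6 (.gap (.rf 1)) (.rf 1) (.gap (.rf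
    1)))) (.rf 1) (.cmp 4 (.cmp 2 (.gap (.rf 1)) (.rf 1) (.gap (.rf 1))) (.rf 1) (.cmp 3 (.gap
    (.rf 1)) (.rf 1) (.gap (.ru 16 (.lc 5 4 7 8 (.ru 23 (.lc 5 7 6 2 (.rf 6) (.pt 5 6 3 0 2 4
    (.rf 6)))) (.rf 19)))))))))) (.cmp 6 (.cmp 1 (.cmp 0 .mn (.rf 19) (.gap (.ru 15 (.ru 17 (.lc
    0 5 8 2 (.pt 2 3 8 0 5 1 (.k5 0 2 3 8 5 (.rf 19))) (.rf 19)))))) (.rf 1) (.cmp 5 (.gap (.rf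
    1)) (.rf 1) (.gap (.rf 1)))) (.rf 1) (.cmp 4 (.cmp 2 (.gap (.rf 1)) (.rf 1) (.gap (.rf 1)))
    (.rf 1) (.cmp 3 (.gap (.rf 1)) (.rf 1) (.gap (.rf 4))))) (.gap (.ru 14 (.ru 18 (.cmp 2 (.cmp
    5 (.cmp 1 (.cmp 0 .mn (.rf 5) (.gap (.ru 15 (.ru 16 (.ru 17 (.lc 0 5 8 7 (.lc 0 5 1 7 (.cp 0
    3 1 5 8 7 (.cp 1 5 0 7 3 8 (.cp 5 0 1 7 3 8 (.cp 5 7 0 8 1 2 (.cp 2 0 8 1 5 7 (.cp 2 0 8 1 5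
    3 (.cp 7 0 8 1 5 3 (.cp 7 3 5 2 6 4 (.rf 19))))))))) (.rf 22)) (.rf 22))))))) (.rf 1) (.gap
    (.rf 1))) (.rf 1) (.cmp 6 (.gap (.rf 1)) (.rf 1) (.gap (.rf 1)))) (.rf 1) (.cmp 4 (.cmp 7
    (.gap (.rf 1)) (.rf 1) (.gap (.rf 1))) (.rf 1) (.cmp 3 (.gap (.rf 1)) (.rf 1) (.gap (.rf
    4))))))))) (.ru 18 (.lc 0 2 5 3 (.pt 5 2 4 1 3 0 (.pt 4 3 5 1 2 6 (.cp 1 5 2 4 3 6 (.cp 1 4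
    5 2 3 0 (.cp 5 0 1 2 3 6 (.rf 6)))))) (.cp 5 1 2 4 3 6 (.rf 6)))) (.cmp 3 (.gap (.ru 14 (.ru
    18 (.lc 5 4 6 7 (.rf 6) (.cmp 2 (.cmp 5 (.cmp 1 (.cmp 0 .mn (.rf 5) (.gap (.ru 15 (.ru 16
    (.ru 17 (.lc 0 5 8 7 (.lc 0 5 1 7 (.cp 0 3 1 5 8 7 (.rf 22)) (.rf 22)) (.rf 22))))))) (.rf
    1) (.gap (.rf 1))) (.rf 1) (.cmp 6 (.gap (.rf 1)) (.rf 1) (.gap (.rf 1)))) (.rf 1) (.cmp 7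
    (.cmp 4 (.gap (.rf 1)) (.rf 1) (.gap (.rf 1))) (.rf 1) (.cmp 3 (.gap (.rf 1)) (.rf 1) (.gap
    (.rf 4))))))))) (.cmp 6 (.cmp 1 (.cmp 0 .mn (.rf 1) (.gap (.rf 1))) (.rf 1) (.cmp 5 (.gap
    (.rf 1)) (.rf 1) (.gap (.rf 1)))) (.rf 1) (.cmp 4 (.cmp 2 (.gap (.rf 1)) (.rf 1) (.gap (.rf
    1))) (.rf 1) (.cmp 3 (.gap (.rf 1)) (.rf 1) (.gap (.rf 1))))) (.gap (.ru 14 (.ru 18 (.lc 5 4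
    6 7 (.rf 6) (.cmp 2 (.cmp 5 (.cmp 1 (.cmp 0 .mn (.rf 1) (.gap (.rf 1))) (.rf 1) (.gap (.ru
    15 (.ru 16 (.ru 17 (.lc 0 5 1 7 (.lc 0 5 8 7 (.cp 0 3 1 5 8 7 (.rf 22)) (.rf 22)) (.rf
    22))))))) (.ru 15 (.lc 0 5 1 7 (.k5 0 1 5 2 3 (.cp 1 5 2 3 7 6 (.cp 5 0 1 2 3 6 (.rf 6))))
    (.rf 22))) (.cmp 6 (.gap (.ru 15 (.ru 16 (.ru 17 (.lc 0 5 1 7 (.lc 0 2 1 7 (.lc 0 2 8 7 (.pt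
    0 7 5 1 2 8 (.pt 1 8 3 0 2 7 (.pt 5 8 3 0 1 7 (.pt 5 2 8 0 1 7 (.pt 2 3 5 0 1 8 (.cp 0 1 2 3
    7 6 (.cp 0 3 5 2 6 4 (.cp 1 0 2 3 7 6 (.cp 5 0 1 2 4 6 (.rf 6)))))))))) (.rf 22)) (.rf 22))
    (.rf 22)))))) (.lc 0 5 1 7 (.lc 0 2 1 7 (.lc 0 2 6 7 (.pt 1 6 3 0 2 7 (.pt 5 6 3 0 1 7 (.rf
    6))) (.rf 22)) (.rf 22)) (.rf 22)) (.gap (.ru 15 (.lc 0 5 1 7 (.lc 0 2 1 7 (.lc 0 2 6 7 (.pt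
    1 6 3 0 2 7 (.pt 5 6 3 0 1 7 (.rf 6))) (.rf 22)) (.rf 22)) (.rf 22)))))) (.rf 5) (.cmp 3
    (.cmp 4 (.gap (.rf 4)) (.rf 4) (.gap (.rf 4))) (.rf 1) (.cmp 7 (.gap (.rf 1)) (.rf 1) (.gap
    (.rf 1)))))))))))

/-- Part of a certificate. -/
def t11_5 : Tr :=
    (.cmp 4 (.cmp 6 (.gap (.ru 14 (.ru 18 (.cmp 7 (.cmp 5 (.cmp 1 (.cmp 0 .mn (.rf 5) (.gap (.ru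
    15 (.ru 16 (.ru 17 (.lc 0 5 8 7 (.lc 0 5 1 7 (.cp 0 3 1 5 8 7 (.cp 1 5 0 7 3 8 (.cp 5 0 1 7
    3 8 (.cp 5 7 0 8 1 2 (.cp 2 0 8 1 5 7 (.cp 2 0 8 1 5 3 (.cp 7 0 8 1 5 3 (.cp 7 3 5 2 6 4
    (.cp 6 2 7 4 3 5 (.rf 6)))))))))) (.rf 22)) (.rf 22))))))) (.rf 1) (.gap (.rf 1))) (.rf 1)
    (.cmp 2 (.gap (.rf 1)) (.rf 1) (.gap (.rf 1)))) (.rf 1) (.cmp 4 (.cmp 6 (.gap (.rf 1)) (.rf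
    1) (.gap (.rf 1))) (.rf 1) (.cmp 3 (.gap (.rf 1)) (.rf 1) (.gap (.rf 4)))))))) (.ru 18 (.lc
    0 5 1 6 (.rf 6) (.pt 0 1 2 6 3 5 (.cp 0 1 2 6 5 4 (.cp 1 0 2 6 5 4 (.cp 5 0 1 4 3 6 (.rf
    6))))))) (.gap (.ru 14 (.ru 18 (.cmp 6 (.cmp 5 (.cmp 1 (.cmp 0 .mn (.rf 5) (.gap (.ru 15
    (.ru 16 (.ru 17 (.lc 0 5 8 7 (.lc 0 5 1 7 (.cp 0 3 1 5 8 7 (.cp 1 5 0 7 3 8 (.cp 5 0 1 7 3 8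
    (.cp 5 7 0 8 1 2 (.cp 2 0 8 1 5 7 (.cp 2 0 8 1 5 3 (.cp 7 0 8 1 5 3 (.cp 7 3 5 2 6 4 (.rf
    19))))))))) (.rf 22)) (.rf 22))))))) (.rf 1) (.gap (.rf 1))) (.rf 1) (.cmp 2 (.gap (.rf 1))
    (.rf 1) (.gap (.rf 1)))) (.rf 1) (.cmp 4 (.cmp 7 (.gap (.rf 1)) (.rf 1) (.gap (.rf 1))) (.rf
    1) (.cmp 3 (.gap (.rf 1)) (.rf 1) (.gap (.rf 4))))))))) (.ru 18 (.lc 0 2 5 3 (.pt 5 2 4 1 3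
    0 (.pt 4 3 5 1 2 6 (.cp 1 5 2 4 3 6 (.cp 1 4 5 2 3 0 (.cp 5 0 1 2 3 6 (.rf 6)))))) (.cp 5 1
    2 4 3 6 (.rf 6)))) (.cmp 3 (.gap (.ru 14 (.ru 18 (.lc 5 4 6 7 (.rf 6) (.cmp 6 (.cmp 5 (.cmp
    1 (.cmp 0 .mn (.rf 5) (.gap (.ru 15 (.ru 16 (.ru 17 (.lc 0 5 8 7 (.lc 0 5 1 7 (.cp 0 3 1 5 8
    7 (.rf 22)) (.rf 22)) (.rf 22))))))) (.rf 1) (.gap (.rf 1))) (.rf 1) (.cmp 2 (.gap (.rf 1))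
    (.rf 1) (.gap (.rf 1)))) (.rf 1) (.cmp 7 (.cmp 4 (.gap (.rf 1)) (.rf 1) (.gap (.rf 1))) (.rf
    1) (.cmp 3 (.gap (.rf 1)) (.rf 1) (.gap (.rf 4))))))))) (.cmp 2 (.cmp 1 (.cmp 0 .mn (.rf 1)
    (.gap (.rf 1))) (.rf 1) (.cmp 5 (.gap (.rf 1)) (.rf 1) (.gap (.rf 1)))) (.rf 1) (.cmp 4
    (.cmp 6 (.gap (.rf 1)) (.rf 1) (.gap (.rf 1))) (.rf 1) (.cmp 3 (.gap (.rf 1)) (.rf 1) (.gap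
    (.rf 1))))) (.gap (.ru 14 (.ru 18 (.lc 5 4 6 7 (.rf 6) (.cmp 6 (.cmp 5 (.cmp 1 (.cmp 0 .mn
    (.rf 1) (.gap (.rf 1))) (.rf 1) (.gap (.ru 15 (.ru 16 (.ru 17 (.lc 0 5 1 7 (.lc 0 5 8 7 (.cp
    0 3 1 5 8 7 (.rf 22)) (.rf 22)) (.rf 22))))))) (.ru 15 (.lc 0 5 1 7 (.k5 0 1 5 2 3 (.cp 1 5
    2 3 7 6 (.cp 5 0 1 2 3 6 (.rf 6)))) (.rf 22))) (.cmp 2 (.gap (.ru 15 (.ru 16 (.ru 17 (.lc 0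
    5 1 7 (.lc 0 2 1 7 (.lc 0 2 8 7 (.pt 0 7 5 1 2 8 (.pt 1 8 3 0 2 7 (.pt 5 8 3 0 1 7 (.pt 5 2
    8 0 1 7 (.pt 2 3 5 0 1 8 (.cp 0 1 2 3 7 6 (.cp 0 3 5 2 6 4 (.cp 1 0 2 3 7 6 (.cp 5 0 1 2 4 6
    (.rf 6)))))))))) (.rf 22)) (.rf 22)) (.rf 22)))))) (.rf 5) (.gap (.rf 4)))) (.rf 4) (.cmp 3
    (.cmp 4 (.gap (.rf 4)) (.rf 4) (.gap (.rf 4))) (.rf 1) (.cmp 7 (.gap (.rf 1)) (.rf 1) (.gap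
    (.rf 1)))))))))))

/-- Part of a certificate. -/
def t11_6 : Tr :=
    (.cmp 2 (.cmp 1 (.cmp 0 .mn (.ru 14 (.ru 18 (.cmp 2 (.cmp 1 (.cmp 0 .mn (.rf 1) (.gap (.rf
    1))) (.rf 1) (.cmp 5 (.gap (.ru 15 (.ru 16 (.ru 17 (.lc 0 5 8 3 (.k5 0 1 5 2 3 (.k5 0 2 3 5
    6 (.rf 6))) (.k5 0 5 2 1 8 (.cp 1 8 0 2 3 6 (.cp 8 0 1 2 3 6 (.cp 5 0 1 8 2 6 (.rf
    6)))))))))) (.ru 17 (.k5 0 1 5 2 3 (.k5 0 2 3 5 6 (.rf 6)))) (.gap (.ru 17 (.lc 5 2 8 3 (.k5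
    0 1 2 5 3 (.k5 0 2 3 5 6 (.rf 6))) (.k5 0 1 5 2 3 (.k5 0 2 3 5 6 (.rf 6)))))))) (.ru 17 (.k5
    0 1 2 5 3 (.k5 0 2 3 5 6 (.rf 6)))) (.cmp 6 (.cmp 4 (.gap (.rf 4)) (.rf 4) (.gap (.rf 4)))
    (.rf 4) (.cmp 3 (.gap (.rf 4)) (.rf 1) (.gap (.rf 1))))))) (.gap (.ru 14 (.ru 18 (.lc 0 5 7
    6 (.rf 6) (.lc 0 6 1 3 (.cp 0 2 1 5 6 7 (.cp 7 0 1 5 6 2 (.cp 1 0 7 2 3 6 (.cp 5 0 7 1 2 6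
    (.rf 6))))) (.pt 0 1 5 2 6 3 (.pt 5 6 2 0 1 7 (.rf 6))))))))) (.ru 18 (.eq 1 1)) (.cmp 5
    (.gap (.ru 14 (.ru 18 (.lc 0 5 7 6 (.rf 6) (.lc 1 5 7 6 (.rf 6) (.pt 0 1 5 2 6 3 (.pt 5 6 2
    0 1 7 (.rf 6)))))))) (.ru 14 (.rf 6)) (.gap (.ru 14 (.ru 18 (.lc 5 2 7 6 (.lc 1 7 5 4 (.pt 7
    2 1 5 4 6 (.k5 7 2 4 5 6 (.rf 6))) (.cp 5 1 2 4 7 6 (.rf 6))) (.rf 6))))))) (.cmp 2 (.cmp 1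
    (.cmp 0 .mn (.rf 19) (.gap (.ru 15 (.ru 17 (.lc 0 5 8 2 (.lc 0 5 8 3 (.pt 2 3 8 0 5 1 (.k5 0
    2 3 8 5 (.rf 19))) (.rf 19)) (.rf 19)))))) (.rf 1) (.cmp 5 (.gap (.rf 1)) (.rf 1) (.gap (.rf
    1)))) (.rf 1) (.cmp 6 (.cmp 4 (.gap (.rf 1)) (.rf 1) (.gap (.rf 1))) (.rf 1) (.cmp 3 (.gap
    (.rf 1)) (.rf 1) (.gap (.rf 4))))) (.cmp 6 (.cmp 4 (.gap (.ru 14 (.ru 18 (.lc 5 4 7 6 (.lc 1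
    7 5 4 (.pt 2 7 1 5 4 6 (.k5 2 7 4 5 6 (.rf 6))) (.cp 5 1 2 4 7 6 (.rf 6))) (.rf 6))))) (.ru
    18 (.lc 0 5 1 4 (.k5 1 5 2 0 4 (.cp 1 0 2 4 3 6 (.cp 5 0 1 2 4 6 (.rf 6)))) (.k5 5 2 4 0 1
    (.cp 1 0 2 4 3 6 (.cp 5 0 1 2 4 6 (.rf 6)))))) (.gap (.ru 14 (.ru 18 (.cmp 4 (.cmp 5 (.cmp 1
    (.cmp 0 .mn (.rf 5) (.gap (.ru 15 (.ru 16 (.ru 17 (.lc 0 5 8 7 (.lc 0 5 1 7 (.cp 0 2 1 5 8 7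
    (.cp 1 5 0 2 7 8 (.cp 5 0 1 2 7 8 (.cp 5 2 0 8 1 3 (.cp 2 0 8 1 5 7 (.cp 2 0 8 1 5 3 (.cp 7
    0 8 1 5 3 (.cp 7 3 5 2 6 4 (.cp 6 2 4 7 3 5 (.rf 6)))))))))) (.rf 22)) (.rf 22))))))) (.rf
    1) (.gap (.rf 1))) (.rf 1) (.cmp 2 (.gap (.rf 1)) (.rf 1) (.gap (.rf 1)))) (.rf 1) (.cmp 6
    (.cmp 7 (.gap (.rf 1)) (.rf 1) (.gap (.rf 1))) (.rf 1) (.cmp 3 (.gap (.rf 1)) (.rf 1) (.gap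
    (.rf 4))))))))) (.ru 18 (.lc 0 5 1 6 (.rf 6) (.pt 0 1 5 2 6 3 (.pt 5 6 1 0 2 4 (.rf 6)))))
    (.cmp 3 (.gap (.ru 18 (.cmp 4 (.cmp 5 (.cmp 1 (.cmp 0 .mn (.rf 5) (.gap (.ru 15 (.ru 16 (.lc
    0 5 8 7 (.lc 0 5 1 7 (.cp 0 2 1 5 8 7 (.rf 22)) (.rf 22)) (.rf 22)))))) (.rf 1) (.gap (.rf
    1))) (.rf 1) (.cmp 2 (.gap (.rf 1)) (.rf 1) (.gap (.rf 1)))) (.rf 1) (.cmp 7 (.cmp 6 (.gap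
    (.rf 1)) (.rf 1) (.gap (.rf 1))) (.rf 1) (.cmp 3 (.gap (.rf 1)) (.rf 1) (.gap (.rf 4)))))))
    (.cmp 2 (.cmp 1 (.cmp 0 .mn (.rf 1) (.gap (.rf 1))) (.rf 1) (.cmp 5 (.gap (.rf 1)) (.rf 1)
    (.gap (.rf 1)))) (.rf 1) (.cmp 6 (.cmp 4 (.gap (.rf 1)) (.rf 1) (.gap (.rf 1))) (.rf 1)
    (.cmp 3 (.gap (.rf 1)) (.rf 1) (.gap (.rf 1))))) (.gap (.ru 14 (.ru 18 (.cmp 4 (.cmp 5 (.cmp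
    1 (.cmp 0 .mn (.rf 1) (.gap (.rf 1))) (.rf 1) (.gap (.ru 15 (.ru 16 (.lc 0 5 1 7 (.lc 0 5 8
    7 (.cp 0 2 1 5 8 7 (.rf 22)) (.rf 22)) (.rf 22)))))) (.ru 16 (.ru 17 (.lc 0 5 1 7 (.k5 0 1 5
    2 3 (.cp 1 5 2 3 7 6 (.cp 5 0 1 2 3 6 (.rf 6)))) (.rf 22)))) (.cmp 2 (.gap (.ru 15 (.lc 0 5
    1 7 (.lc 0 2 1 7 (.k5 1 5 2 0 7 (.cp 0 1 2 7 3 6 (.cp 0 7 5 2 6 4 (.cp 1 0 2 7 3 6 (.cp 5 0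
    1 2 4 6 (.rf 6)))))) (.rf 22)) (.rf 22)))) (.rf 5) (.gap (.rf 4)))) (.rf 4) (.cmp 3 (.cmp 6
    (.gap (.rf 4)) (.rf 4) (.gap (.rf 4))) (.rf 1) (.cmp 7 (.gap (.rf 1)) (.rf 1) (.gap (.rf
    1)))))))))))

/-- Part of a certificate. -/
def t11_7 : Tr :=
    (.cmp 2 (.cmp 1 (.cmp 0 .mn (.ru 14 (.ru 18 (.lc 1 3 4 6 (.pt 1 6 3 0 2 4 (.pt 5 6 2 0 1 4
    (.rf 6))) (.k5 0 1 2 5 6 (.rf 6))))) (.gap (.ru 14 (.ru 18 (.lc 0 5 7 6 (.rf 6) (.lc 1 3 4 6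
    (.cp 1 5 2 4 7 6 (.cp 1 4 5 2 6 0 (.cp 5 1 0 2 7 6 (.rf 6)))) (.pt 0 1 5 2 6 3 (.pt 5 6 2 0
    1 7 (.rf 6))))))))) (.ru 18 (.eq 1 1)) (.cmp 5 (.gap (.ru 14 (.ru 18 (.lc 0 5 7 6 (.rf 6)
    (.lc 1 5 7 6 (.rf 6) (.pt 0 1 5 2 6 3 (.pt 5 6 2 0 1 7 (.rf 6)))))))) (.ru 14 (.rf 6)) (.gap
    (.ru 14 (.ru 18 (.lc 5 2 7 6 (.lc 1 3 4 6 (.cp 5 1 2 4 7 6 (.rf 6)) (.pt 5 6 7 1 2 4 (.rf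
    6))) (.rf 6))))))) (.cmp 2 (.cmp 1 (.cmp 0 .mn (.rf 19) (.gap (.ru 15 (.ru 17 (.lc 0 5 8 2
    (.lc 0 5 8 3 (.pt 2 3 8 0 5 1 (.k5 0 2 3 8 5 (.rf 19))) (.rf 19)) (.rf 19)))))) (.rf 1)
    (.cmp 5 (.gap (.rf 1)) (.rf 1) (.gap (.rf 1)))) (.rf 1) (.cmp 3 (.cmp 4 (.gap (.rf 1)) (.rf
    1) (.gap (.rf 1))) (.rf 1) (.cmp 6 (.gap (.rf 4)) (.rf 4) (.gap (.rf 4))))) (.cmp 3 (.cmp 4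
    (.gap (.ru 14 (.ru 18 (.lc 5 4 7 6 (.lc 1 3 4 6 (.cp 5 1 2 4 7 6 (.rf 6)) (.pt 5 6 7 1 2 4
    (.rf 6))) (.rf 6))))) (.ru 18 (.lc 0 5 1 4 (.k5 1 5 2 0 4 (.cp 1 0 2 4 3 6 (.cp 5 0 1 2 4 6
    (.rf 6)))) (.k5 5 2 4 0 1 (.cp 1 0 2 4 3 6 (.cp 5 0 1 2 4 6 (.rf 6)))))) (.gap (.ru 14 (.ru
    18 (.cmp 4 (.cmp 5 (.cmp 1 (.cmp 0 .mn (.rf 5) (.gap (.ru 15 (.ru 16 (.ru 17 (.lc 0 5 8 7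
    (.lc 0 5 1 7 (.cp 0 2 1 5 8 7 (.cp 1 5 0 2 7 8 (.cp 5 0 1 2 7 8 (.cp 5 2 0 8 1 3 (.cp 2 0 8
    1 5 7 (.cp 2 0 8 1 5 3 (.cp 7 0 8 1 5 3 (.cp 7 3 5 2 6 4 (.cp 6 2 4 7 3 5 (.rf 6))))))))))
    (.rf 22)) (.rf 22))))))) (.rf 1) (.gap (.rf 1))) (.rf 1) (.cmp 2 (.gap (.rf 1)) (.rf 1)
    (.gap (.rf 1)))) (.rf 1) (.cmp 3 (.cmp 7 (.gap (.rf 1)) (.rf 1) (.gap (.rf 1))) (.rf 1)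
    (.cmp 6 (.gap (.rf 4)) (.rf 4) (.gap (.rf 4))))))))) (.cmp 2 (.cmp 1 (.cmp 0 .mn (.rf 1)
    (.gap (.rf 1))) (.rf 1) (.cmp 5 (.gap (.rf 1)) (.rf 1) (.gap (.rf 1)))) (.rf 1) (.cmp 3
    (.cmp 4 (.gap (.rf 1)) (.rf 1) (.gap (.rf 1))) (.rf 1) (.cmp 6 (.gap (.rf 1)) (.rf 1) (.gap
    (.rf 1))))) (.cmp 6 (.gap (.ru 14 (.ru 18 (.cmp 4 (.cmp 5 (.cmp 1 (.cmp 0 .mn (.rf 1) (.gap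
    (.rf 1))) (.rf 1) (.gap (.ru 15 (.ru 16 (.ru 17 (.lc 0 5 1 7 (.lc 0 5 8 7 (.cp 0 2 1 5 8 7
    (.cp 1 5 0 2 7 8 (.cp 8 0 1 2 7 5 (.cp 5 2 0 1 8 3 (.cp 2 0 1 8 5 3 (.cp 2 0 1 8 5 7 (.cp 3
    0 1 8 5 7 (.cp 3 7 5 2 6 4 (.cp 6 2 4 3 7 5 (.rf 6)))))))))) (.rf 22)) (.rf 22))))))) (.ru
    16 (.ru 17 (.lc 0 5 1 7 (.k5 0 1 5 2 3 (.cp 1 5 2 3 7 6 (.cp 5 0 1 2 3 6 (.rf 6)))) (.rf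
    22)))) (.cmp 2 (.gap (.ru 15 (.lc 0 5 1 7 (.lc 0 2 1 7 (.k5 1 5 2 0 7 (.cp 0 1 2 7 3 6 (.cp
    0 7 5 2 6 4 (.cp 1 0 2 7 3 6 (.cp 5 0 1 2 4 6 (.rf 6)))))) (.rf 22)) (.rf 22)))) (.rf 5)
    (.gap (.rf 4)))) (.rf 4) (.cmp 7 (.cmp 3 (.gap (.rf 4)) (.rf 1) (.gap (.rf 1))) (.rf 1)
    (.cmp 6 (.gap (.rf 1)) (.rf 1) (.gap (.rf 1)))))))) (.ru 18 (.lc 0 5 1 6 (.rf 6) (.pt 0 1 5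
    2 6 3 (.pt 5 6 1 0 2 4 (.rf 6))))) (.gap (.ru 14 (.ru 18 (.cmp 4 (.cmp 5 (.cmp 1 (.cmp 0 .mn
    (.rf 1) (.gap (.rf 1))) (.rf 1) (.gap (.ru 15 (.ru 16 (.ru 17 (.lc 0 5 1 7 (.lc 0 5 8 7 (.cp
    0 2 1 5 8 7 (.cp 1 5 0 2 7 8 (.cp 8 0 1 2 7 5 (.cp 5 2 0 1 8 3 (.cp 2 0 1 8 5 3 (.cp 2 0 1 8
    5 7 (.cp 3 0 1 8 5 7 (.cp 3 7 5 2 6 4 (.cp 6 2 4 3 7 5 (.rf 6)))))))))) (.rf 22)) (.rf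
    22))))))) (.ru 16 (.ru 17 (.lc 0 5 1 7 (.k5 0 1 5 2 3 (.cp 1 5 2 3 7 6 (.cp 5 0 1 2 3 6 (.rf
    6)))) (.rf 22)))) (.cmp 2 (.gap (.ru 15 (.lc 0 5 1 7 (.lc 0 2 1 7 (.k5 1 5 2 0 7 (.cp 0 1 2
    7 3 6 (.cp 0 7 5 2 6 4 (.cp 1 0 2 7 3 6 (.cp 5 0 1 2 4 6 (.rf 6)))))) (.rf 22)) (.rf 22))))
    (.rf 5) (.gap (.rf 4)))) (.rf 4) (.cmp 6 (.cmp 3 (.gap (.rf 4)) (.rf 1) (.gap (.rf 1))) (.rf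
    1) (.cmp 7 (.gap (.rf 1)) (.rf 1) (.gap (.rf 1)))))))))))

/-- Part of a certificate. -/
def t11_8 : Tr :=
    (.cmp 3 (.cmp 4 (.gap (.ru 12 (.ru 13 (.lc 5 4 6 3 (.rf 6) (.cmp 2 (.cmp 1 (.cmp 0 .mn (.ru
    14 (.ru 18 (.lc 0 2 5 3 (.k5 0 1 3 5 2 (.k5 0 2 3 5 6 (.rf 6))) (.k5 0 1 5 2 3 (.k5 0 2 3 5
    6 (.rf 6)))))) (.gap (.ru 14 (.lc 0 5 7 6 (.rf 6) (.lc 0 2 5 3 (.cp 0 3 2 6 5 4 (.cp 2 6 0 4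
    3 5 (.cp 6 0 2 4 3 5 (.rf 6)))) (.pt 5 6 3 0 2 4 (.rf 6))))))) (.ru 18 (.eq 1 1)) (.cmp 5
    (.gap (.ru 14 (.ru 18 (.lc 0 5 7 6 (.rf 6) (.lc 1 5 7 6 (.rf 6) (.pt 0 1 2 6 3 5 (.pt 5 6 3
    0 1 7 (.rf 6)))))))) (.ru 14 (.rf 6)) (.gap (.ru 14 (.ru 18 (.cmp 2 (.cmp 5 (.cmp 1 (.cmp 0
    .mn (.ru 16 (.lc 0 7 5 4 (.rf 19) (.ru 20 (.pt 7 3 6 0 5 1 (.cp 0 6 7 3 2 1 (.cp 1 0 7 3 2 6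
    (.cp 5 0 1 7 4 6 (.rf 6)))))))) (.gap (.ru 16 (.lc 8 7 5 4 (.rf 19) (.ru 20 (.lc 0 2 5 3
    (.cp 0 3 2 6 5 4 (.cp 2 6 0 4 3 5 (.cp 6 0 2 4 3 5 (.rf 6)))) (.pt 5 6 3 0 2 4 (.rf
    6)))))))) (.rf 1) (.gap (.rf 1))) (.rf 1) (.cmp 7 (.gap (.rf 1)) (.rf 1) (.gap (.rf 1))))
    (.rf 1) (.cmp 4 (.cmp 6 (.gap (.rf 1)) (.rf 1) (.gap (.rf 1))) (.rf 1) (.cmp 3 (.gap (.rf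
    1)) (.rf 1) (.gap (.ru 16 (.lc 5 4 7 8 (.ru 23 (.lc 0 2 5 3 (.cp 0 3 2 6 5 4 (.cp 2 6 0 4 3
    5 (.cp 6 0 2 4 3 5 (.rf 6)))) (.pt 5 6 3 0 2 4 (.rf 6)))) (.rf 19)))))))))))) (.cmp 2 (.cmp
    1 (.cmp 0 .mn (.rf 19) (.gap (.ru 15 (.ru 17 (.lc 0 5 8 2 (.pt 2 3 8 0 5 1 (.k5 0 2 3 8 5
    (.rf 19))) (.rf 19)))))) (.rf 1) (.cmp 5 (.gap (.rf 1)) (.rf 1) (.gap (.rf 1)))) (.rf 1)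
    (.cmp 4 (.cmp 6 (.gap (.rf 1)) (.rf 1) (.gap (.rf 1))) (.rf 1) (.cmp 3 (.gap (.rf 1)) (.rf
    1) (.gap (.rf 4))))) t11_5))))) (.rf 6) (.gap (.ru 12 (.ru 13 (.lc 5 4 2 6 t11_6 (.rf
    6)))))) (.ru 13 (.lc 5 4 2 3 (.cmp 2 (.cmp 1 (.cmp 0 .mn (.ru 18 (.k5 0 1 2 5 3 (.rf 6)))
    (.gap (.ru 14 (.ru 18 (.lc 0 5 7 3 (.rf 6) (.pt 5 3 7 1 2 0 (.rf 6))))))) (.ru 18 (.eq 1 1))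
    (.cmp 5 (.gap (.ru 14 (.ru 18 (.lc 0 5 7 3 (.rf 6) (.pt 5 3 7 1 2 0 (.rf 6)))))) (.ru 14
    (.rf 6)) (.gap (.ru 14 (.ru 18 (.lc 5 2 7 3 (.pt 5 3 7 1 2 0 (.rf 6)) (.rf 6))))))) (.cmp 2
    (.cmp 1 (.cmp 0 .mn (.rf 19) (.gap (.ru 17 (.lc 0 5 8 3 (.rf 6) (.rf 19))))) (.rf 1) (.cmp 5
    (.gap (.rf 1)) (.rf 1) (.gap (.rf 1)))) (.rf 1) (.cmp 3 (.cmp 4 (.gap (.rf 1)) (.rf 1) (.gap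
    (.rf 1))) (.rf 1) (.gap (.rf 4)))) (.cmp 3 (.cmp 4 (.gap (.ru 14 (.ru 18 (.lc 5 4 7 3 (.pt 5
    3 7 1 2 0 (.rf 6)) (.rf 6))))) (.ru 18 (.k5 1 2 4 5 3 (.rf 6))) (.gap (.ru 14 (.ru 18 (.lc 0
    5 1 7 (.k5 0 1 2 5 3 (.rf 6)) (.pt 0 1 5 2 3 7 (.pt 5 3 1 0 2 4 (.rf 6)))))))) (.cmp 2 (.cmp
    1 (.cmp 0 .mn (.rf 1) (.gap (.rf 1))) (.rf 1) (.cmp 5 (.gap (.rf 1)) (.rf 1) (.gap (.rf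
    1)))) (.rf 1) (.cmp 3 (.cmp 4 (.gap (.rf 1)) (.rf 1) (.gap (.rf 1))) (.rf 1) (.gap (.rf
    1)))) (.gap (.ru 14 (.ru 18 (.lc 0 5 1 7 (.k5 0 1 2 5 3 (.rf 6)) (.pt 0 1 5 2 3 7 (.pt 5 3 1
    0 2 4 (.rf 6))))))))) (.rf 6))) (.gap (.ru 12 (.ru 13 (.lc 5 4 2 6 t11_7 (.rf 6))))))

/-- Part of a certificate. -/
def t11_9 : Tr :=
    (.cmp 2 (.cmp 1 (.cmp 0 .mn (.rf 6) (.gap (.ru 12 (.ru 13 (.lc 0 5 6 2 (.lc 0 5 6 3 (.pt 2 3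
    6 0 5 1 (.k5 0 2 3 6 5 (.rf 6))) (.rf 6)) (.rf 6)))))) (.rf 6) (.cmp 5 (.gap (.ru 12 (.ru 13
    (.lc 0 5 6 2 (.lc 0 6 1 5 (.rf 6) (.pt 0 1 3 6 2 5 (.k5 0 1 2 6 5 (.rf 6)))) (.rf 6)))))
    (.rf 7) (.gap (.ru 12 (.ru 13 (.lc 5 4 6 3 (.rf 6) (.cmp 6 (.cmp 1 (.cmp 0 .mn (.ru 14 (.ru
    18 (.lc 0 2 5 3 (.k5 0 1 3 5 2 (.k5 0 2 3 5 6 (.rf 6))) (.k5 0 1 5 2 3 (.k5 0 2 3 5 6 (.rf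
    6)))))) (.gap (.ru 14 (.lc 0 5 7 6 (.rf 6) (.lc 0 2 5 3 (.cp 0 3 6 2 5 4 (.cp 6 2 0 4 3 5
    (.rf 6))) (.pt 5 6 3 0 2 4 (.rf 6))))))) (.ru 18 (.eq 1 1)) (.cmp 5 (.gap (.ru 14 (.ru 18
    (.lc 0 5 7 6 (.rf 6) (.lc 1 5 7 6 (.rf 6) (.pt 0 1 2 6 3 5 (.pt 5 6 3 0 1 7 (.rf 6))))))))
    (.ru 14 (.rf 6)) (.gap (.ru 14 (.ru 18 (.cmp 6 (.cmp 5 (.cmp 1 (.cmp 0 .mn (.ru 16 (.lc 0 7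
    5 4 (.rf 19) (.ru 20 (.pt 7 3 6 0 5 1 (.cp 0 6 7 3 2 1 (.cp 1 0 7 3 2 6 (.cp 5 0 1 7 4 6
    (.rf 6)))))))) (.gap (.ru 16 (.lc 8 7 5 4 (.rf 19) (.ru 20 (.lc 0 6 1 2 (.cp 0 3 1 5 6 7
    (.cp 1 5 0 7 3 6 (.cp 5 0 1 7 3 6 (.rf 6)))) (.pt 0 1 2 6 3 5 (.pt 5 6 3 0 1 7 (.rf
    6))))))))) (.rf 1) (.gap (.rf 1))) (.rf 1) (.cmp 7 (.gap (.rf 1)) (.rf 1) (.gap (.rf 1))))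
    (.rf 1) (.cmp 4 (.cmp 2 (.gap (.rf 1)) (.rf 1) (.gap (.rf 1))) (.rf 1) (.cmp 3 (.gap (.rf
    1)) (.rf 1) (.gap (.ru 16 (.lc 5 4 7 8 (.ru 23 (.lc 0 2 5 3 (.cp 0 3 6 2 5 4 (.cp 6 2 0 4 3
    5 (.rf 6))) (.pt 5 6 3 0 2 4 (.rf 6)))) (.rf 19)))))))))))) (.ru 18 (.lc 0 5 1 6 (.rf 6)
    (.pt 0 1 2 6 3 5 (.cp 0 1 6 2 5 4 (.cp 1 0 6 2 5 4 (.cp 5 0 1 4 3 6 (.rf 6)))))))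
    t11_4))))))) (.ru 12 (.lc 5 4 2 3 (.rf 6) (.cmp 2 (.cmp 1 (.cmp 0 .mn (.ru 18 (.k5 0 1 3 5 2
    (.rf 6))) (.gap (.ru 14 (.ru 18 (.lc 0 5 7 2 (.rf 6) (.pt 5 2 7 1 3 0 (.rf 6))))))) (.ru 18
    (.eq 1 1)) (.cmp 5 (.gap (.ru 14 (.ru 18 (.lc 0 5 7 2 (.rf 6) (.pt 5 2 7 1 3 0 (.rf 6))))))
    (.ru 14 (.rf 6)) (.gap (.ru 14 (.ru 18 (.lc 0 5 1 7 (.k5 0 1 3 5 2 (.rf 6)) (.pt 0 1 7 2 3 5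
    (.k5 0 1 3 5 2 (.rf 6))))))))) (.cmp 2 (.cmp 1 (.cmp 0 .mn (.rf 19) (.gap (.ru 15 (.lc 0 5 8
    2 (.rf 6) (.rf 19))))) (.rf 1) (.cmp 5 (.gap (.rf 1)) (.rf 1) (.gap (.rf 1)))) (.rf 1) (.cmp
    3 (.cmp 4 (.gap (.rf 1)) (.rf 1) (.gap (.rf 1))) (.rf 1) (.gap (.rf 4)))) (.cmp 3 (.cmp 4
    (.gap (.ru 14 (.ru 18 (.lc 0 5 1 7 (.k5 0 1 3 5 2 (.rf 6)) (.pt 0 1 7 2 3 5 (.k5 0 1 3 5 2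
    (.rf 6))))))) (.ru 18 (.pt 5 2 4 1 3 0 (.rf 6))) (.gap (.ru 14 (.ru 18 (.lc 5 4 2 7 (.rf 6)
    (.pt 5 2 7 1 3 0 (.rf 6))))))) (.cmp 2 (.cmp 1 (.cmp 0 .mn (.rf 1) (.gap (.rf 1))) (.rf 1)
    (.cmp 5 (.gap (.rf 1)) (.rf 1) (.gap (.rf 1)))) (.rf 1) (.cmp 3 (.cmp 4 (.gap (.rf 1)) (.rf
    1) (.gap (.rf 1))) (.rf 1) (.gap (.rf 1)))) (.gap (.ru 14 (.ru 18 (.lc 5 4 2 7 (.rf 6) (.pt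
    5 2 7 1 3 0 (.rf 6)))))))))) t11_8)

/-- Part of a certificate. -/
def t11_10 : Tr :=
    (.cmp 3 (.gap (.ru 12 (.ru 13 (.cmp 2 (.cmp 1 (.cmp 0 .mn (.ru 14 (.k5 0 2 3 1 6 (.rf 6)))
    (.gap (.ru 14 (.lc 0 1 7 6 (.rf 6) (.k5 0 2 3 1 6 (.rf 6)))))) (.ru 18 (.eq 1 1)) (.gap (.ru
    14 (.ru 18 (.lc 0 2 7 6 (.cp 1 0 2 3 7 6 (.rf 6)) (.k5 0 2 3 1 6 (.rf 6))))))) (.cmp 2 (.cmp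
    1 (.cmp 0 .mn (.rf 19) (.gap (.ru 17 (.ru 20 (.k5 0 2 3 1 6 (.rf 6)))))) (.rf 1) (.gap (.rf
    1))) (.rf 1) (.cmp 3 (.cmp 6 (.gap (.rf 1)) (.rf 1) (.gap (.rf 1))) (.rf 1) (.gap (.rf 4))))
    (.cmp 3 (.cmp 6 (.gap (.ru 14 (.ru 18 (.cmp 7 (.cmp 1 (.cmp 0 .mn (.rf 5) (.gap (.ru 15 (.ru
    16 (.ru 17 (.lc 0 1 8 7 (.k5 0 2 3 8 1 (.cp 8 1 2 3 7 6 (.cp 1 0 8 2 3 6 (.rf 6)))) (.rf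
    22))))))) (.rf 1) (.cmp 2 (.gap (.rf 1)) (.rf 1) (.gap (.rf 1)))) (.rf 1) (.cmp 3 (.cmp 6
    (.gap (.rf 1)) (.rf 1) (.gap (.rf 1))) (.rf 1) (.gap (.rf 4))))))) (.ru 18 (.rf 6)) (.gap
    (.ru 14 (.ru 18 (.cmp 6 (.cmp 1 (.cmp 0 .mn (.rf 5) (.gap (.ru 15 (.ru 16 (.ru 17 (.lc 0 1 8
    7 (.k5 0 2 3 8 1 (.cp 8 1 2 3 7 6 (.cp 1 0 8 2 3 6 (.rf 6)))) (.rf 22))))))) (.rf 1) (.cmp 2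
    (.gap (.rf 1)) (.rf 1) (.gap (.rf 1)))) (.rf 1) (.cmp 3 (.cmp 7 (.gap (.rf 1)) (.rf 1) (.gap
    (.rf 1))) (.rf 1) (.gap (.rf 4)))))))) (.cmp 2 (.cmp 1 (.cmp 0 .mn (.rf 1) (.gap (.rf 1)))
    (.rf 1) (.gap (.rf 1))) (.rf 1) (.cmp 3 (.cmp 6 (.gap (.rf 1)) (.rf 1) (.gap (.rf 1))) (.rf
    1) (.gap (.rf 1)))) (.gap (.ru 14 (.ru 18 (.lc 0 3 6 7 (.k5 0 2 3 1 6 (.rf 6)) (.cp 1 0 2 3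
    7 6 (.rf 6))))))))))) (.rf 6) (.gap (.ru 12 (.ru 13 (.cmp 2 (.cmp 1 (.cmp 0 .mn (.ru 14 (.k5
    0 2 3 1 6 (.rf 6))) (.gap (.ru 14 (.lc 0 1 7 6 (.rf 6) (.k5 0 2 3 1 6 (.rf 6)))))) (.ru 18
    (.eq 1 1)) (.gap (.ru 14 (.ru 18 (.lc 0 2 7 6 (.cp 1 0 2 3 7 6 (.rf 6)) (.k5 0 2 3 1 6 (.rf
    6))))))) (.cmp 2 (.cmp 1 (.cmp 0 .mn (.rf 19) (.gap (.ru 17 (.ru 20 (.k5 0 2 3 1 6 (.rf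
    6)))))) (.rf 1) (.gap (.rf 1))) (.rf 1) (.cmp 6 (.cmp 3 (.gap (.rf 1)) (.rf 1) (.gap (.rf
    4))) (.rf 4) (.gap (.rf 4)))) (.cmp 6 (.cmp 3 (.gap (.ru 14 (.ru 18 (.lc 0 3 7 6 (.cp 1 0 2
    3 7 6 (.rf 6)) (.k5 0 2 3 1 6 (.rf 6)))))) (.cmp 2 (.cmp 1 (.cmp 0 .mn (.rf 1) (.gap (.rf
    1))) (.rf 1) (.gap (.rf 1))) (.rf 1) (.cmp 6 (.cmp 3 (.gap (.rf 1)) (.rf 1) (.gap (.rf 1)))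
    (.rf 1) (.gap (.rf 1)))) (.gap (.ru 18 (.cmp 3 (.cmp 1 (.cmp 0 .mn (.rf 1) (.gap (.rf 1)))
    (.rf 1) (.cmp 2 (.gap (.ru 17 (.ru 23 (.k5 0 2 3 1 6 (.rf 6))))) (.rf 5) (.gap (.rf 4))))
    (.rf 1) (.cmp 6 (.cmp 7 (.gap (.rf 1)) (.rf 1) (.gap (.rf 1))) (.rf 1) (.gap (.rf 1)))))))
    (.ru 18 (.rf 6)) (.gap (.ru 18 (.cmp 3 (.cmp 1 (.cmp 0 .mn (.rf 1) (.gap (.rf 1))) (.rf 1)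
    (.cmp 2 (.gap (.ru 17 (.ru 23 (.k5 0 2 3 1 6 (.rf 6))))) (.rf 5) (.gap (.rf 4)))) (.rf 1)
    (.cmp 7 (.cmp 6 (.gap (.rf 1)) (.rf 1) (.gap (.rf 1))) (.rf 1) (.gap (.rf 1))))))))))))

/-- Part of a certificate. -/
def t11_11 : Tr :=
    (.cmp 6 (.cmp 1 (.cmp 0 .mn (.ru 14 (.ru 18 (.k5 0 1 3 5 2 (.k5 0 2 3 5 6 (.rf 6))))) (.gap
    (.ru 14 (.ru 18 (.lc 0 5 7 6 (.rf 6) (.lc 0 6 1 2 (.k5 0 1 3 5 2 (.k5 0 2 3 5 6 (.rf 6)))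
    (.k5 6 2 3 0 1 (.pt 5 6 3 0 1 7 (.rf 6))))))))) (.ru 18 (.eq 1 1)) (.cmp 5 (.gap (.ru 14
    (.ru 18 (.lc 0 5 7 6 (.rf 6) (.lc 1 5 7 6 (.rf 6) (.k5 6 2 3 0 1 (.pt 5 6 3 0 1 7 (.rf
    6)))))))) (.ru 14 (.rf 6)) (.gap (.ru 14 (.ru 18 (.cmp 7 (.cmp 1 (.cmp 0 .mn (.ru 16 (.lc 0
    7 5 3 (.rf 19) (.ru 20 (.pt 0 1 7 5 3 2 (.pt 1 6 7 0 2 3 (.pt 5 6 7 0 1 3 (.rf 6)))))))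
    (.gap (.ru 16 (.ru 17 (.lc 8 7 5 3 (.rf 19) (.ru 20 (.lc 0 6 1 2 (.k5 0 1 3 5 2 (.k5 0 2 3 5
    6 (.rf 6))) (.k5 6 2 3 0 1 (.pt 5 6 3 0 1 7 (.rf 6)))))))))) (.rf 1) (.cmp 5 (.gap (.rf 1))
    (.rf 1) (.gap (.rf 1)))) (.rf 1) (.cmp 2 (.cmp 6 (.gap (.rf 1)) (.rf 1) (.gap (.rf 1))) (.rf
    1) (.cmp 3 (.gap (.rf 1)) (.rf 1) (.gap (.ru 16 (.ru 17 (.lc 5 3 7 8 (.ru 23 (.lc 0 6 1 2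
    (.k5 0 1 3 5 2 (.k5 0 2 3 5 6 (.rf 6))) (.k5 6 2 3 0 1 (.pt 5 6 3 0 1 7 (.rf 6))))) (.rf
    19))))))))))))) (.ru 18 (.lc 0 5 1 6 (.rf 6) (.k5 6 2 3 0 1 (.cp 6 2 0 1 3 5 (.rf 6)))))
    (.cmp 3 (.cmp 2 (.gap (.ru 14 (.ru 18 (.cmp 6 (.cmp 1 (.cmp 0 .mn (.ru 16 (.lc 0 7 5 3 (.rf
    19) (.ru 20 (.pt 0 1 7 5 3 2 (.pt 1 6 7 0 2 3 (.pt 5 6 7 0 1 3 (.rf 6))))))) (.gap (.ru 16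
    (.ru 17 (.lc 8 7 5 3 (.rf 19) (.ru 20 (.lc 5 7 6 2 (.rf 6) (.k5 0 2 3 5 6 (.rf 6)))))))))
    (.rf 1) (.cmp 5 (.gap (.rf 1)) (.rf 1) (.gap (.rf 1)))) (.rf 1) (.cmp 2 (.cmp 7 (.gap (.rf
    1)) (.rf 1) (.gap (.rf 1))) (.rf 1) (.cmp 3 (.gap (.rf 1)) (.rf 1) (.gap (.ru 16 (.ru 17
    (.lc 5 3 7 8 (.ru 23 (.lc 5 7 6 2 (.rf 6) (.k5 0 2 3 5 6 (.rf 6)))) (.rf 19))))))))))) (.cmp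
    6 (.cmp 1 (.cmp 0 .mn (.rf 19) (.gap (.ru 15 (.ru 17 (.lc 0 5 8 2 (.ru 20 (.k5 0 2 3 5 6
    (.rf 6))) (.rf 19)))))) (.rf 1) (.cmp 5 (.gap (.rf 1)) (.rf 1) (.gap (.rf 1)))) (.rf 1)
    (.cmp 3 (.cmp 2 (.gap (.rf 1)) (.rf 1) (.gap (.rf 1))) (.rf 1) (.gap (.rf 4)))) (.gap (.ru
    14 (.ru 18 (.cmp 6 (.cmp 1 (.cmp 0 .mn (.rf 5) (.gap (.ru 15 (.ru 16 (.ru 17 (.lc 0 5 8 7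
    (.lc 0 5 1 7 (.k5 0 1 3 5 2 (.k5 0 2 3 8 1 (.k5 0 2 3 8 5 (.k5 8 1 5 2 7 (.k5 8 1 5 7 3 (.k5
    2 7 3 5 6 (.rf 6))))))) (.rf 22)) (.rf 22))))))) (.rf 1) (.cmp 5 (.gap (.rf 1)) (.rf 1)
    (.gap (.rf 1)))) (.rf 1) (.cmp 7 (.cmp 2 (.gap (.rf 1)) (.rf 1) (.gap (.rf 1))) (.rf 1)
    (.cmp 3 (.gap (.rf 1)) (.rf 1) (.gap (.rf 4))))))))) (.cmp 6 (.cmp 1 (.cmp 0 .mn (.rf 1)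
    (.gap (.rf 1))) (.rf 1) (.cmp 5 (.gap (.rf 1)) (.rf 1) (.gap (.rf 1)))) (.rf 1) (.cmp 3
    (.cmp 2 (.gap (.rf 1)) (.rf 1) (.gap (.rf 1))) (.rf 1) (.gap (.rf 1)))) (.gap (.ru 14 (.ru
    18 (.lc 5 3 6 7 (.rf 6) (.lc 0 5 1 7 (.k5 0 1 3 5 2 (.cp 1 5 2 3 7 6 (.cp 5 0 1 2 3 6 (.rf
    6)))) (.pt 0 1 7 5 3 2 (.cp 1 0 2 3 7 6 (.cp 5 0 1 3 7 6 (.rf 6)))))))))))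

/-- Part of a certificate. -/
def t11_12 : Tr :=
    (.cmp 2 (.cmp 1 (.cmp 0 .mn (.ru 14 (.ru 18 (.k5 0 1 3 5 2 (.k5 0 2 3 5 6 (.rf 6))))) (.gap
    (.ru 14 (.ru 18 (.lc 0 5 7 6 (.rf 6) (.lc 0 6 1 3 (.k5 0 1 3 5 2 (.k5 0 2 3 5 6 (.rf 6)))
    (.k5 2 6 3 0 1 (.pt 5 6 3 0 1 7 (.rf 6))))))))) (.ru 18 (.eq 1 1)) (.cmp 5 (.gap (.ru 14
    (.ru 18 (.lc 0 5 7 6 (.rf 6) (.lc 1 5 7 6 (.rf 6) (.k5 2 6 3 0 1 (.pt 5 6 3 0 1 7 (.rf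
    6)))))))) (.ru 14 (.rf 6)) (.gap (.ru 14 (.ru 18 (.cmp 7 (.cmp 1 (.cmp 0 .mn (.ru 16 (.lc 0
    7 5 3 (.rf 19) (.ru 20 (.pt 0 1 7 5 3 2 (.pt 1 6 7 0 2 3 (.pt 5 6 7 0 1 3 (.rf 6)))))))
    (.gap (.ru 16 (.ru 17 (.lc 8 7 5 3 (.rf 19) (.ru 20 (.lc 0 6 1 3 (.k5 0 1 3 5 2 (.k5 0 2 3 5
    6 (.rf 6))) (.k5 2 6 3 0 1 (.pt 5 6 3 0 1 7 (.rf 6)))))))))) (.rf 1) (.cmp 5 (.gap (.rf 1))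
    (.rf 1) (.gap (.rf 1)))) (.rf 1) (.cmp 6 (.cmp 2 (.gap (.rf 1)) (.rf 1) (.gap (.rf 1))) (.rf
    1) (.cmp 3 (.gap (.rf 1)) (.rf 1) (.gap (.ru 16 (.ru 17 (.lc 5 3 7 8 (.ru 23 (.lc 0 6 1 3
    (.k5 0 1 3 5 2 (.k5 0 2 3 5 6 (.rf 6))) (.k5 2 6 3 0 1 (.pt 5 6 3 0 1 7 (.rf 6))))) (.rf
    19))))))))))))) (.cmp 2 (.cmp 1 (.cmp 0 .mn (.rf 19) (.gap (.ru 15 (.ru 17 (.lc 0 5 8 2 (.ru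
    20 (.k5 0 2 3 5 6 (.rf 6))) (.rf 19)))))) (.rf 1) (.cmp 5 (.gap (.rf 1)) (.rf 1) (.gap (.rf
    1)))) (.rf 1) (.cmp 3 (.cmp 6 (.gap (.rf 1)) (.rf 1) (.gap (.rf 1))) (.rf 1) (.gap (.rf
    4)))) (.cmp 3 (.cmp 6 (.gap (.ru 14 (.ru 18 (.cmp 2 (.cmp 1 (.cmp 0 .mn (.rf 5) (.gap (.ru
    15 (.ru 16 (.ru 17 (.lc 0 5 8 7 (.lc 0 5 1 7 (.k5 0 1 3 5 2 (.k5 0 2 3 8 1 (.k5 0 2 3 8 5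
    (.k5 8 1 5 2 7 (.k5 8 1 5 7 3 (.k5 2 7 3 5 6 (.rf 6))))))) (.rf 22)) (.rf 22))))))) (.rf 1)
    (.cmp 5 (.gap (.rf 1)) (.rf 1) (.gap (.rf 1)))) (.rf 1) (.cmp 6 (.cmp 7 (.gap (.rf 1)) (.rf
    1) (.gap (.rf 1))) (.rf 1) (.cmp 3 (.gap (.rf 1)) (.rf 1) (.gap (.rf 4)))))))) (.ru 18 (.lc
    0 5 1 6 (.rf 6) (.k5 2 6 3 0 1 (.cp 2 6 0 1 3 5 (.cp 6 0 1 2 3 5 (.rf 6)))))) (.gap (.ru 14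
    (.ru 18 (.cmp 2 (.cmp 1 (.cmp 0 .mn (.rf 5) (.gap (.ru 15 (.ru 16 (.ru 17 (.lc 0 5 8 7 (.lc
    0 5 1 7 (.k5 0 1 3 5 2 (.k5 0 2 3 8 1 (.k5 0 2 3 8 5 (.k5 8 1 5 2 7 (.k5 8 1 5 7 3 (.k5 2 7
    3 5 6 (.rf 6))))))) (.rf 22)) (.rf 22))))))) (.rf 1) (.cmp 5 (.gap (.rf 1)) (.rf 1) (.gap
    (.rf 1)))) (.rf 1) (.cmp 7 (.cmp 6 (.gap (.rf 1)) (.rf 1) (.gap (.rf 1))) (.rf 1) (.cmp 3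
    (.gap (.rf 1)) (.rf 1) (.gap (.rf 4))))))))) (.cmp 2 (.cmp 1 (.cmp 0 .mn (.rf 1) (.gap (.rf
    1))) (.rf 1) (.cmp 5 (.gap (.rf 1)) (.rf 1) (.gap (.rf 1)))) (.rf 1) (.cmp 3 (.cmp 6 (.gap
    (.rf 1)) (.rf 1) (.gap (.rf 1))) (.rf 1) (.gap (.rf 1)))) (.gap (.ru 14 (.ru 18 (.lc 5 3 6 7
    (.rf 6) (.lc 0 5 1 7 (.k5 0 1 3 5 2 (.cp 1 5 2 3 7 6 (.cp 5 0 1 2 3 6 (.rf 6)))) (.pt 0 1 7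
    5 3 2 (.cp 1 0 2 3 7 6 (.cp 5 0 1 3 7 6 (.rf 6)))))))))))

/-- Part of a certificate. -/
def t11_13 : Tr :=
    (.cmp 5 (.cmp 1 (.cmp 0 .mn (.rf 6) (.gap (.ru 12 (.ru 13 (.lc 0 5 6 2 (.k5 0 2 3 6 5 (.rf
    6)) (.rf 6)))))) (.rf 6) (.gap (.ru 12 (.ru 13 (.lc 0 5 6 2 (.k5 0 2 3 6 5 (.rf 6)) (.rf
    6)))))) (.rf 7) (.cmp 3 (.cmp 2 (.gap (.ru 12 (.ru 13 t11_11))) (.cmp 5 (.cmp 1 (.cmp 0 .mn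
    (.ru 18 (.k5 0 1 3 5 2 (.rf 6))) (.gap (.ru 14 (.ru 18 (.lc 0 5 7 2 (.rf 6) (.pt 5 2 7 1 3 0
    (.rf 6))))))) (.ru 18 (.eq 1 1)) (.gap (.ru 14 (.ru 18 (.lc 0 5 7 2 (.rf 6) (.pt 5 2 7 1 3 0
    (.rf 6))))))) (.ru 14 (.rf 6)) (.cmp 3 (.cmp 2 (.gap (.ru 14 (.ru 18 (.lc 0 5 1 7 (.k5 0 1 3
    5 2 (.rf 6)) (.pt 0 1 7 2 3 5 (.k5 0 1 3 5 2 (.rf 6))))))) (.cmp 5 (.cmp 1 (.cmp 0 .mn (.rf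
    19) (.gap (.ru 15 (.lc 0 5 8 2 (.rf 6) (.rf 19))))) (.rf 1) (.gap (.rf 1))) (.rf 1) (.cmp 3
    (.cmp 2 (.gap (.rf 1)) (.rf 1) (.gap (.rf 1))) (.rf 1) (.gap (.rf 4)))) (.gap (.ru 14 (.ru
    18 (.lc 0 5 1 7 (.k5 0 1 3 5 2 (.rf 6)) (.pt 0 1 7 2 3 5 (.k5 0 1 3 5 2 (.rf 6)))))))) (.cmp
    5 (.cmp 1 (.cmp 0 .mn (.rf 1) (.gap (.rf 1))) (.rf 1) (.gap (.rf 1))) (.rf 1) (.cmp 3 (.cmp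
    2 (.gap (.rf 1)) (.rf 1) (.gap (.rf 1))) (.rf 1) (.gap (.rf 1)))) (.gap (.ru 14 (.ru 18 (.lc
    5 3 2 7 (.rf 6) (.pt 5 2 7 1 3 0 (.rf 6)))))))) (.gap (.ru 12 (.ru 13 t11_12)))) (.rf 6)
    (.gap (.ru 12 (.ru 13 (.lc 5 3 2 6 (.k5 5 2 3 0 1 (.cmp 2 (.cmp 1 (.cmp 0 .mn (.ru 14 (.k5 0
    2 3 5 6 (.rf 6))) (.gap (.ru 14 (.lc 0 5 7 6 (.rf 6) (.k5 0 2 3 5 6 (.rf 6)))))) (.ru 18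
    (.eq 1 1)) (.cmp 5 (.gap (.ru 14 (.lc 0 5 7 6 (.rf 6) (.k5 0 2 3 5 6 (.rf 6))))) (.ru 14
    (.rf 6)) (.gap (.ru 14 (.ru 18 (.lc 5 2 7 6 (.cp 1 5 2 3 7 6 (.cp 5 0 1 2 3 6 (.rf 6))) (.rf
    6))))))) (.cmp 2 (.cmp 1 (.cmp 0 .mn (.rf 19) (.gap (.ru 17 (.ru 20 (.k5 0 2 3 5 6 (.rf
    6)))))) (.rf 1) (.cmp 5 (.gap (.rf 1)) (.rf 1) (.gap (.rf 1)))) (.rf 1) (.cmp 6 (.cmp 3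
    (.gap (.rf 1)) (.rf 1) (.gap (.rf 4))) (.rf 4) (.gap (.rf 4)))) (.cmp 6 (.cmp 3 (.gap (.ru
    14 (.ru 18 (.lc 5 3 7 6 (.cp 1 5 2 3 7 6 (.cp 5 0 1 2 3 6 (.rf 6))) (.rf 6))))) (.cmp 2
    (.cmp 1 (.cmp 0 .mn (.rf 1) (.gap (.rf 1))) (.rf 1) (.cmp 5 (.gap (.rf 1)) (.rf 1) (.gap
    (.rf 1)))) (.rf 1) (.cmp 6 (.cmp 3 (.gap (.rf 1)) (.rf 1) (.gap (.rf 1))) (.rf 1) (.gap (.rf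
    1)))) (.gap (.ru 14 (.ru 18 (.lc 0 5 1 7 (.cp 1 5 2 3 7 6 (.cp 5 0 1 2 3 6 (.rf 6))) (.cp 1
    0 2 3 7 6 (.cp 5 0 1 2 3 6 (.rf 6)))))))) (.ru 18 (.k5 1 2 3 5 6 (.rf 6))) (.gap (.ru 14
    (.ru 18 (.lc 0 5 1 7 (.cp 1 5 2 3 7 6 (.cp 5 0 1 2 3 6 (.rf 6))) (.cp 1 0 2 3 7 6 (.cp 5 0 1
    2 3 6 (.rf 6)))))))))) (.rf 6)))))))

/-- Part of a certificate. -/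
def t11_14 : Tr :=
    (.cmp 3 (.gap (.ru 10 (.cmp 2 (.cmp 1 (.cmp 0 .mn (.rf 0) (.gap (.ru 8 (.ru 9 (.ru 11 (.lc 5
    4 1 3 (.rf 21) (.cmp 2 (.cmp 5 (.cmp 0 .mn (.rf 6) (.gap (.ru 12 (.ru 13 (.lc 0 5 6 2 (.pt 2
    3 6 0 5 1 (.k5 0 2 3 6 5 (.rf 6))) (.rf 6)))))) (.rf 7) (.cmp 1 (.gap (.ru 12 (.ru 13 (.lc 5
    1 6 2 (.rf 6) (.pt 2 3 0 5 1 6 (.k5 1 2 3 5 6 (.rf 6))))))) (.rf 6) (.gap (.ru 12 (.ru 13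
    (.lc 5 4 6 3 (.rf 6) (.lc 0 2 5 3 (.pt 5 2 4 1 3 0 (.cp 5 1 2 4 3 6 (.rf 6))) (.cp 5 1 2 4 3
    6 (.rf 6))))))))) (.ru 12 (.pt 5 2 4 1 3 0 (.rf 6))) (.cmp 3 (.cmp 4 (.gap (.ru 12 (.ru 13
    (.lc 5 4 6 3 (.rf 6) (.lc 2 4 6 3 (.rf 21) (.pt 5 2 4 1 3 0 (.cp 5 1 2 4 3 6 (.rf 6))))))))
    (.rf 6) (.gap (.ru 12 (.ru 13 (.lc 5 4 2 6 (.cp 5 1 2 4 3 6 (.rf 6)) (.rf 6)))))) (.rf 6)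
    (.gap (.ru 12 (.ru 13 (.lc 5 4 2 6 (.cp 5 1 2 4 3 6 (.rf 6)) (.rf 6))))))))))))) (.ru 8 (.ru
    9 (.cmp 2 (.cmp 1 (.cmp 0 .mn (.rf 6) (.gap (.ru 12 (.ru 13 (.lc 0 1 6 2 (.lc 6 2 1 4 (.rf
    6) (.pt 6 1 3 0 2 4 (.rf 6))) (.rf 6)))))) (.rf 7) (.gap (.ru 12 (.ru 13 (.lc 1 4 6 3 (.rf
    6) (.lc 0 2 6 4 (.pt 1 6 3 0 2 4 (.rf 6)) (.cp 1 0 2 4 3 6 (.rf 6)))))))) (.rf 6) (.cmp 3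
    (.cmp 4 (.gap (.ru 12 (.ru 13 (.lc 1 4 6 3 (.rf 6) t11_2)))) (.rf 6) (.gap (.ru 12 (.ru 13
    (.lc 1 4 2 6 t11_3 (.rf 6)))))) (.rf 6) (.gap (.ru 12 (.ru 13 (.lc 1 4 2 6 (.lc 0 3 4 6 (.cp
    1 0 2 4 3 6 (.rf 6)) (.pt 1 6 3 0 2 4 (.rf 6))) (.rf 6))))))))) (.gap (.ru 8 (.ru 9 (.ru 11
    t11_9))))) (.rf 0) (.cmp 3 (.cmp 4 (.gap (.rf 0)) (.rf 0) (.gap (.rf 0))) (.rf 0) (.gap (.rf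
    0)))))) (.ru 10 (.cmp 2 (.cmp 1 (.cmp 0 .mn (.rf 0) (.gap (.rf 2))) (.ru 9 (.cmp 2 (.cmp 1
    (.cmp 0 .mn (.rf 6) (.gap (.ru 12 (.ru 13 (.lc 0 1 6 2 (.k5 0 2 3 6 1 (.rf 6)) (.rf 6))))))
    (.rf 7) (.gap (.ru 12 (.ru 13 (.cmp 6 (.cmp 1 (.cmp 0 .mn (.ru 14 (.k5 0 2 3 1 6 (.rf 6)))
    (.gap (.ru 14 (.lc 0 1 7 6 (.rf 6) (.k5 0 2 3 1 6 (.rf 6)))))) (.ru 18 (.eq 1 1)) (.gap (.ru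
    18 (.cmp 6 (.cmp 1 (.cmp 0 .mn (.ru 20 (.k5 0 2 3 1 6 (.rf 6))) (.gap (.ru 17 (.ru 20 (.k5 0
    2 3 1 6 (.rf 6)))))) (.rf 1) (.cmp 7 (.gap (.rf 1)) (.rf 1) (.gap (.rf 1)))) (.rf 1) (.cmp 3
    (.cmp 2 (.gap (.rf 1)) (.rf 1) (.gap (.rf 1))) (.rf 1) (.gap (.ru 17 (.ru 23 (.k5 0 2 3 1 6
    (.rf 6)))))))))) (.ru 18 (.rf 6)) (.cmp 3 (.cmp 2 (.gap (.ru 18 (.cmp 7 (.cmp 1 (.cmp 0 .mn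
    (.ru 20 (.k5 0 2 3 1 6 (.rf 6))) (.gap (.ru 17 (.ru 20 (.k5 0 2 3 1 6 (.rf 6)))))) (.rf 1)
    (.cmp 6 (.gap (.rf 1)) (.rf 1) (.gap (.rf 1)))) (.rf 1) (.cmp 3 (.cmp 2 (.gap (.rf 1)) (.rf
    1) (.gap (.rf 1))) (.rf 1) (.gap (.ru 17 (.ru 23 (.k5 0 2 3 1 6 (.rf 6))))))))) (.cmp 6
    (.cmp 1 (.cmp 0 .mn (.rf 19) (.gap (.ru 17 (.ru 20 (.k5 0 2 3 1 6 (.rf 6)))))) (.rf 1) (.gap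
    (.rf 1))) (.rf 1) (.cmp 3 (.cmp 2 (.gap (.rf 1)) (.rf 1) (.gap (.rf 1))) (.rf 1) (.gap (.rf
    4)))) (.gap (.ru 14 (.ru 18 (.lc 0 2 6 7 (.k5 0 2 3 1 6 (.rf 6)) (.cp 1 0 2 3 7 6 (.rf
    6))))))) (.cmp 6 (.cmp 1 (.cmp 0 .mn (.rf 1) (.gap (.rf 1))) (.rf 1) (.gap (.rf 1))) (.rf 1)
    (.cmp 3 (.cmp 2 (.gap (.rf 1)) (.rf 1) (.gap (.rf 1))) (.rf 1) (.gap (.rf 1)))) (.gap (.ru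
    14 (.ru 18 (.lc 0 2 6 7 (.k5 0 2 3 1 6 (.rf 6)) (.cp 1 0 2 3 7 6 (.rf 6)))))))))))) (.rf 6)
    t11_10)) (.gap (.ru 8 (.ru 9 (.ru 11 t11_13))))) (.rf 0) (.cmp 3 (.gap (.rf 0)) (.rf 0)
    (.gap (.rf 0))))) (.gap (.ru 10 (.cmp 2 (.cmp 1 (.cmp 0 .mn (.rf 0) (.gap (.rf 2))) (.rf 3)
    (.gap (.ru 8 (.ru 9 (.ru 11 (.lc 0 3 5 4 (.rf 21) (.lc 0 3 2 4 (.rf 21) (.pt 5 2 4 0 3 1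
    (.k5 0 5 2 3 4 (.rf 21)))))))))) (.rf 0) (.cmp 4 (.cmp 3 (.gap (.rf 0)) (.rf 0) (.gap (.rf
    0))) (.rf 0) (.gap (.rf 0)))))))

/-- Certificate. -/
def tree11 : Tr :=
    (.cmp 2 (.cmp 1 (.cmp 0 .mn (.cmp 2 (.cmp 1 (.cmp 0 .mn (.rf 0) (.gap (.rf 0))) (.rf 0)
    (.gap (.rf 0))) (.rf 0) (.cmp 3 (.gap (.rf 0)) (.rf 0) (.gap (.rf 0)))) (.gap (.ru 10 (.cmp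
    1 (.cmp 4 (.cmp 0 .mn (.rf 0) (.gap (.rf 0))) (.rf 0) (.gap (.rf 0))) (.rf 0) (.cmp 3 (.cmp
    2 (.gap (.rf 0)) (.rf 0) (.gap (.ru 8 (.ru 9 (.ru 11 (.lc 4 2 1 3 (.lc 4 5 1 3 (.pt 2 5 4 1
    3 0 (.k5 1 2 5 4 3 (.rf 21))) (.rf 21)) (.rf 21))))))) (.rf 2) (.gap (.rf 2))))))) (.cmp 2
    (.cmp 1 (.cmp 0 .mn (.rf 0) (.gap (.rf 0))) (.rf 0) (.gap (.rf 0))) (.rf 0) (.cmp 3 (.gap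
    (.ru 8 (.ru 9 t11_0))) (.cmp 2 (.cmp 1 (.cmp 0 .mn (.rf 6) (.gap (.ru 12 (.rf 6)))) (.rf 6)
    (.gap (.ru 12 (.rf 6)))) (.ru 12 (.rf 6)) (.cmp 3 (.gap (.ru 12 (.rf 6))) (.rf 7) (.gap (.ru
    12 (.rf 6))))) (.gap (.rf 3)))) (.gap (.ru 10 (.cmp 4 (.cmp 1 (.cmp 0 .mn (.rf 0) (.gap (.rf
    0))) (.rf 0) (.gap (.rf 0))) (.rf 0) (.cmp 3 (.cmp 2 (.gap (.rf 0)) (.rf 0) (.gap (.ru 8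
    (.ru 9 (.ru 11 t11_1))))) (.ru 8 (.cmp 4 (.cmp 1 (.cmp 0 .mn (.rf 6) (.gap (.ru 12 (.rf
    6)))) (.rf 6) (.gap (.ru 12 (.rf 6)))) (.rf 6) (.cmp 3 (.cmp 2 (.gap (.ru 12 (.rf 6))) (.ru
    12 (.rf 6)) (.gap (.ru 12 (.rf 6)))) (.rf 7) (.gap (.ru 12 (.rf 6)))))) (.gap (.ru 8 (.ru 9
    (.ru 11 (.lc 0 3 4 5 (.lc 0 4 1 3 (.rf 21) (.pt 0 1 2 4 5 3 (.k5 0 1 5 4 3 (.rf 21)))) (.rf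
    21))))))))))) (.ru 10 (.eq 2 2)) t11_14)

theorem chk11 : chk (rulesCom ++ (rulesZ1t ++ rulesZ0t)) tree11 rk0 none none T0 = true := by
  decide +kernel

end Pool.Agent.Confl.Cert3
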