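import Pool.Agent.Confl.Main
import Pool.Agent.Confl.Q.Step
import Pool.Agent.Confl.Q.Mild
import Pool.Agent.Confl.T.SoundGen
import Pool.Agent.Confl.W.CompleteW

/-!
# Outerconfluent drawings of mild graphs
-/

set_option autoImplicit false

open Filter Topology Set

namespace Pool.Agent.Confl

variable {V : Type} {G : SimpleGraph V} {x : V → ℝ}

theorem J_monoQ {u g h : V} {s s' : ℝ} (hJ : J G x u g h s)
    (hs : 0 < (s' - s) * (x h - x g)) : J G x u g h s' := by
  refine ⟨hJ.1, ?_⟩
  intro a b hab halt hgb hah hpos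
  refine hJ.2 a b hab halt hgb hah ?_
  have e1 : (X x g h a b - s) * (x h - x g) =
      (X x g h a b - s') * (x h - x g) + (s' - s) * (x h - x g) := by ring
  rw [e1]
  exact add_pos hpos hs

theorem invariantQ (hx : Function.Injective x) (hg : Generic x) (hH : Horn G) (hlc : LC G x)
    (u : V) : Invariant G x u (fun g h s => J G x u g h s) where
  base := fun _ s hub => J_baseQ hx hH hlc hub s
  mono := fun _ _ _ _ hI hs => J_monoQ hI hs
  step := fun _ _ _ _ _ hgh hI hab halt hgb hah hs =>
    J_stepQ hx hg hH hlc hgh hI hab halt hgb hah hs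
  fin := fun _ _ _ hI => hI.1

theorem outerconfluentAt_of_lcQ [Finite V] (G : SimpleGraph V) (x : V → ℝ)
    (hx : Function.Injective x) (h3 : Mild G) (h : LC G x) : OuterconfluentAt G x := by
  obtain ⟨y, hxy, hg⟩ := exists_generic x hx
  have hy : Function.Injective y := by
    intro u v huv
    by_contra hne
    rcases lt_or_gt_of_ne (fun h => hne (hx h) : x u ≠ x v) with h | h
    · exact absurd ((hxy u v).1 h) (by rw [huv]; exact lt_irrefl _)
    · exact absurd ((hxy v u).1 h) (by rw [huv]; exact lt_irrefl _)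
  have hlc : LC G y := by
    intro a b c d hab hbc hcd hac hbd
    exact h a b c d ((hxy _ _).2 hab) ((hxy _ _).2 hbc) ((hxy _ _).2 hcd) hac hbd
  obtain ⟨W, hW⟩ := chord_weak G y hy hg
  obtain ⟨D, hD⟩ := upgrade W
  have hDs : D.toSkel = chordSkel G y := hD.trans hW
  have hrep : (chordSkel G y).Represents G := by
    intro u v huv
    exact ⟨fun h => chord_completeW G y hy h, fun ⟨p, hp⟩ =>
      (chord_sound_gen G y hy hlc (invariantQ hy hg h3.horn hlc u) hp).resolve_left huv⟩
  refine ⟨D, represents_eq hDs hrep, fun u v => ?_⟩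
  have hp : ∀ w, (D.pt (Sum.inl w)).re = y w := by
    intro w
    have key : ∀ S : Skel V, S = chordSkel G y → (S.pt (Sum.inl w)).re = y w := by
      rintro S rfl
      simp [chordSkel, cpt]
    exact key D.toSkel hDs
  rw [hp, hp]
  exact hxy u v

end Pool.Agent.Confl
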