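import Pool.Agent.Confl.Q.Check

/-!
# The rules

Labels: 0 c, 1 a, 2 d, 3 b, 4 e, 5 f, 6 u, 7 h, 8 g. Each tree starts from the order
`c < a < d < b`, the adjacencies ab, cd, ad, cb.
-/

set_option autoImplicit false

namespace Pool.Agent.Confl.Cert3

/-- Initial ranks. -/
def rk0 : List ℕ := [0, 1048576, 2097152, 3145728]

/-- Initial adjacencies. -/
def T0 : List (ℕ × ℕ) := [(1, 3), (0, 2), (1, 2), (0, 3)]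

/-- Rules for three chords. -/
def rulesBase : List Rule :=
    [⟨[.nalt 0 2 4 5], [], .fls⟩,
    ⟨[.nalt 1 3 4 5, .alt 4 5 0 1], [], .fls⟩,
    ⟨[.nalt 1 3 4 5, .alt 4 5 0 3], [], .fls⟩,
    ⟨[], [(1, 5)], .fls⟩,
    ⟨[.eq 1 5], [], .fls⟩,
    ⟨[], [], .adj 4 5⟩,
    ⟨[], [], .adj 0 5⟩,
    ⟨[], [], .adj 4 2⟩]

/-- Common rules for four chords. -/
def rulesCom : List Rule :=
    [⟨[.nalt 0 2 4 5], [], .fls⟩,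
    ⟨[.nalt 8 7 1 3], [], .fls⟩,
    ⟨[.nalt 1 3 4 5, .alt 4 5 0 1], [], .fls⟩,
    ⟨[.nalt 1 3 4 5, .alt 4 5 0 3], [], .fls⟩,
    ⟨[.nalt 8 7 0 2, .alt 0 2 1 8], [], .fls⟩,
    ⟨[.nalt 8 7 0 2, .alt 0 2 1 7], [], .fls⟩,
    ⟨[], [(6, 5)], .fls⟩,
    ⟨[.eq 6 5], [], .fls⟩,
    ⟨[], [], .adj 4 5⟩,
    ⟨[], [], .adj 0 5⟩,
    ⟨[], [], .adj 4 2⟩,
    ⟨[], [], .aeq 1 5⟩,
    ⟨[], [], .aeq 6 3⟩,
    ⟨[], [], .aeq 6 2⟩,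
    ⟨[], [], .aeq 6 7⟩,
    ⟨[], [], .aeq 8 2⟩,
    ⟨[], [], .adj 8 7⟩,
    ⟨[], [], .adj 8 3⟩,
    ⟨[], [], .adj 1 7⟩,
    ⟨[.alt 8 7 4 5, .nalt 1 3 4 5, .nalt 4 5 8 1, .nalt 4 5 8 3], [(8, 5), (7, 4)], .fls⟩,
    ⟨[.alt 8 7 4 5, .nalt 1 3 4 5, .nalt 4 5 8 1, .nalt 4 5 8 3, .nalt 8 7 0 2, .nalt 8 7 4 0, .nalt 8 7 4 2], [(8, 4), (7, 5)], .aeq 6 0⟩]

/-- The crossing of ab and ef is ahead of the crossing of gh and ab. -/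
def rulesZ1t : List Rule :=
    [⟨[.alt 1 3 4 5], [(1, 5), (4, 3)], .fls⟩]

/-- The crossing of ab and ef is not ahead of the crossing of gh and ab. -/
def rulesZ1f : List Rule :=
    [⟨[.alt 1 3 4 5, .nalt 4 5 1 0], [], .fls⟩,
    ⟨[.alt 1 3 4 5, .nalt 8 7 4 5, .nalt 4 5 1 8, .nalt 4 5 1 7, .ne 8 5], [], .fls⟩,
    ⟨[.alt 1 3 4 5, .nalt 8 7 4 5, .nalt 4 5 1 8, .nalt 4 5 1 7, .ne 7 4], [], .fls⟩,
    ⟨[.alt 8 7 4 5, .alt 1 3 4 5, .nalt 4 5 8 3], [(8, 5), (7, 4)], .fls⟩]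

/-- The crossing of gh and cd is before the crossing of cd and ef. -/
def rulesZ0t : List Rule :=
    [⟨[.alt 8 7 0 2, .nalt 0 2 8 1], [(8, 2), (0, 7)], .fls⟩,
    ⟨[.alt 8 7 4 5, .nalt 1 3 4 5, .nalt 4 5 8 1, .nalt 4 5 8 3, .alt 8 7 0 2, .nalt 8 7 4 2], [(8, 4), (7, 5)], .aeq 6 0⟩]

/-- The crossing of gh and cd is not before the crossing of cd and ef. -/
def rulesZ0f : List Rule :=
    [⟨[.alt 8 7 0 2, .nalt 8 7 4 5, .nalt 1 3 4 5, .nalt 4 5 0 8, .nalt 4 5 0 7], [], .fls⟩]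

end Pool.Agent.Confl.Cert3
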